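import Mathlib

set_option autoImplicit false
set_option linter.unusedSectionVars false

/-! The Fox Jacobian of an automorphism of a free group modulo the square of the augmentation
ideal of the group ring of the abelianization, and its determinant. -/

namespace Pool.Agent.W7h60.QQ

section aff

variable {ι : Type*} {S : Type*} [CommRing S]

/-- affine transformations `w ↦ v + a w` -/
@[ext] structure Aff (ι : Type*) (S : Type*) [CommRing S] where
  a : Sˣ
  v : ι → S

namespace Aff

instance : Mul (Aff ι S) := ⟨fun x y => ⟨x.a * y.a, x.v + (x.a : S) • y.v⟩⟩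
instance : One (Aff ι S) := ⟨⟨1, 0⟩⟩
instance : Inv (Aff ι S) := ⟨fun x => ⟨x.a⁻¹, -(((x.a⁻¹ : Sˣ) : S) • x.v)⟩⟩

@[simp] theorem mul_a (x y : Aff ι S) : (x * y).a = x.a * y.a := rfl
@[simp] theorem mul_v (x y : Aff ι S) : (x * y).v = x.v + (x.a : S) • y.v := rfl
@[simp] theorem one_a : (1 : Aff ι S).a = 1 := rfl
@[simp] theorem one_v : (1 : Aff ι S).v = 0 := rfl
@[simp] theorem inv_a (x : Aff ι S) : x⁻¹.a = x.a⁻¹ := rfl
@[simp] theorem inv_v (x : Aff ι S) : x⁻¹.v = -(((x.a⁻¹ : Sˣ) : S) • x.v) := rfl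

instance : Group (Aff ι S) := Group.ofLeftAxioms
  (fun x y z => by
    ext : 1
    · simp [mul_assoc]
    · simp [mul_smul, smul_add, add_assoc])
  (fun x => by ext : 1 <;> simp)
  (fun x => by
    ext : 1
    · simp
    · simp)

end Aff

end aff

section fox

variable (ι : Type) [Fintype ι] [DecidableEq ι] (R : Type*) [CommRing R]

/-- the group ring of the abelianization modulo the square of the augmentation ideal -/
abbrev SS := TrivSqZeroExt R (ι → R)

variable {ι} {R}

/-- the unit `1 + v` -/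
def eu (v : ι → R) : (SS ι R)ˣ where
  val := 1 + TrivSqZeroExt.inr v
  inv := 1 + TrivSqZeroExt.inr (-v)
  val_inv := by
    rw [mul_add, add_mul, add_mul, TrivSqZeroExt.inr_mul_inr, one_mul, mul_one, one_mul, add_zero,
      TrivSqZeroExt.inr_neg]
    abel
  inv_val := by
    rw [mul_add, add_mul, add_mul, TrivSqZeroExt.inr_mul_inr, one_mul, mul_one, one_mul, add_zero,
      TrivSqZeroExt.inr_neg]
    abel

theorem eu_add (v w : ι → R) : eu (v + w) = eu v * eu w := by
  apply Units.ext
  show 1 + TrivSqZeroExt.inr (v + w) = (1 + TrivSqZeroExt.inr v) * (1 + TrivSqZeroExt.inr w)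
  rw [mul_add, add_mul, add_mul, TrivSqZeroExt.inr_mul_inr, one_mul, mul_one, one_mul, add_zero,
    TrivSqZeroExt.inr_add]
  abel

theorem eu_zero : eu (0 : ι → R) = 1 := by
  apply Units.ext
  show 1 + TrivSqZeroExt.inr 0 = (1 : SS ι R)
  rw [TrivSqZeroExt.inr_zero, add_zero]

theorem eu_neg (v : ι → R) : (eu v)⁻¹ = eu (-v) := by
  apply inv_eq_of_mul_eq_one_right
  rw [← eu_add, add_neg_cancel, eu_zero]

theorem eu_val (v : ι → R) : ((eu v : (SS ι R)ˣ) : SS ι R) = 1 + TrivSqZeroExt.inr v := rfl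

/-- the Magnus embedding -/
def mg : FreeGroup ι →* Aff ι (SS ι R) :=
  FreeGroup.lift (fun j => ⟨eu (Pi.single j 1), Pi.single j 1⟩)

theorem mg_of (j : ι) : mg (R := R) (FreeGroup.of j) = ⟨eu (Pi.single j 1), Pi.single j 1⟩ := by
  unfold mg
  rw [FreeGroup.lift_apply_of]

/-- the abelianization -/
def ab (u : FreeGroup ι) : ι → R := fun j => ((mg (R := R) u).v j).fst

/-- abelianization as a homomorphism -/
theorem mg_a (u : FreeGroup ι) : (mg (R := R) u).a = eu (ab u) := by
  -- both sides are homomorphisms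
  have hfst : ∀ u : FreeGroup ι, ((mg (R := R) u).a : SS ι R).fst = 1 := by
    intro u
    induction u using FreeGroup.induction_on with
    | C1 => simp
    | of j =>
      rw [mg_of]
      show ((1 : SS ι R) + TrivSqZeroExt.inr (Pi.single j 1)).fst = 1
      simp
    | inv_of j h =>
      rw [map_inv, Aff.inv_a, mg_of]
      show ((1 : SS ι R) + TrivSqZeroExt.inr (-Pi.single j 1)).fst = 1
      simp
    | mul x y hx hy =>
      rw [map_mul, Aff.mul_a, Units.val_mul, TrivSqZeroExt.fst_mul, hx, hy, mul_one]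
  have hab : ∀ x y : FreeGroup ι, ab (R := R) (x * y) = ab x + ab y := by
    intro x y
    funext j
    unfold ab
    rw [map_mul, Aff.mul_v, Pi.add_apply, Pi.smul_apply, smul_eq_mul, TrivSqZeroExt.fst_add,
      TrivSqZeroExt.fst_mul, hfst, one_mul]
    rfl
  induction u using FreeGroup.induction_on with
  | C1 =>
    rw [map_one]
    have : ab (R := R) (1 : FreeGroup ι) = 0 := by
      funext j
      unfold ab
      rw [map_one]
      rfl
    rw [this, eu_zero]
    rfl
  | of j =>
    rw [mg_of]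
    have : ab (R := R) (FreeGroup.of j) = Pi.single j 1 := by
      funext k
      unfold ab
      rw [mg_of]
      simp only
      rcases eq_or_ne k j with rfl | hk
      · simp
      · simp [Pi.single_eq_of_ne hk]
    rw [this]
  | inv_of j h =>
    have h1 : ab (R := R) (FreeGroup.of j)⁻¹ + ab (FreeGroup.of j) = 0 := by
      rw [← hab, inv_mul_cancel]
      funext j
      unfold ab
      rw [map_one]
      rfl
    rw [map_inv, Aff.inv_a, h, eq_neg_of_add_eq_zero_left h1, eu_neg]
  | mul x y hx hy =>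
    rw [map_mul, Aff.mul_a, hx, hy, hab, eu_add]

/-- the Fox Jacobian -/
def J (ψ : MulAut (FreeGroup ι)) : Matrix ι ι (SS ι R) :=
  Matrix.of fun i j => (mg (R := R) (ψ (FreeGroup.of i))).v j

/-- the matrix on the abelianization, row convention -/
def g0 (ψ : MulAut (FreeGroup ι)) : Matrix ι ι R :=
  Matrix.of fun i j => ab (R := R) (ψ (FreeGroup.of i)) j

/-- the action on the truncated group ring -/
noncomputable def sgm (M : Matrix ι ι R) : SS ι R →ₐ[R] SS ι R :=
  TrivSqZeroExt.map (Matrix.vecMulLinear M)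

theorem sgm_inr (M : Matrix ι ι R) (v : ι → R) :
    sgm M (TrivSqZeroExt.inr v) = TrivSqZeroExt.inr (Matrix.vecMul v M) := by
  unfold sgm
  rw [TrivSqZeroExt.map_inr]
  rfl

theorem sgm_fst (M : Matrix ι ι R) (x : SS ι R) : (sgm M x).fst = x.fst := by
  unfold sgm
  rw [TrivSqZeroExt.fst_map]

/-- the action on the affine group -/
noncomputable def Phi (ψ : MulAut (FreeGroup ι)) : Aff ι (SS ι R) →* Aff ι (SS ι R) where
  toFun x := ⟨Units.map (sgm (g0 ψ)).toMonoidHom x.a,
    Matrix.vecMul (fun k => sgm (g0 ψ) (x.v k)) (J ψ)⟩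
  map_one' := by
    ext : 1
    · simp
    · simp only [Aff.one_v, Pi.zero_apply, map_zero]
      exact Matrix.zero_vecMul _
  map_mul' x y := by
    ext : 1
    · simp
    · simp only [Aff.mul_v, Pi.add_apply, Pi.smul_apply, smul_eq_mul, map_add, map_mul]
      rw [show (fun k => sgm (g0 ψ) (x.v k) + sgm (g0 ψ) (x.a : SS ι R) * sgm (g0 ψ) (y.v k)) =
        (fun k => sgm (g0 ψ) (x.v k)) + sgm (g0 ψ) (x.a : SS ι R) •
          (fun k => sgm (g0 ψ) (y.v k)) from rfl, Matrix.add_vecMul, Matrix.smul_vecMul]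
      rfl

theorem mg_comp (ψ : MulAut (FreeGroup ι)) (u : FreeGroup ι) :
    mg (R := R) (ψ u) = Phi ψ (mg u) := by
  have : (mg (R := R)).comp (ψ : FreeGroup ι →* FreeGroup ι) = (Phi ψ).comp (mg (R := R)) := by
    apply FreeGroup.ext_hom
    intro k
    show mg (R := R) (ψ (FreeGroup.of k)) = Phi ψ (mg (FreeGroup.of k))
    rw [mg_of]
    ext : 1
    · rw [mg_a]
      apply Units.ext
      show 1 + TrivSqZeroExt.inr _ = sgm (g0 ψ) (1 + TrivSqZeroExt.inr (Pi.single k 1))
      rw [map_add, map_one, sgm_inr, Matrix.single_one_vecMul]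
      rfl
    · show (mg (R := R) (ψ (FreeGroup.of k))).v =
        Matrix.vecMul (fun l => sgm (g0 ψ) ((Pi.single k 1 : ι → SS ι R) l)) (J ψ)
      have : (fun l => sgm (g0 ψ) ((Pi.single k 1 : ι → SS ι R) l)) = Pi.single k 1 := by
        funext l
        rcases eq_or_ne l k with rfl | hl
        · simp
        · simp [Pi.single_eq_of_ne hl]
      rw [this, Matrix.single_one_vecMul]
      rfl
  exact DFunLike.congr_fun this u

theorem J_mul (ψ φ : MulAut (FreeGroup ι)) :
    J (R := R) (ψ * φ) = (J φ).map (sgm (g0 ψ)) * J ψ := by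
  apply Matrix.ext
  intro i j
  show (mg (R := R) (ψ (φ (FreeGroup.of i)))).v j = _
  rw [mg_comp]
  show Matrix.vecMul (fun k => sgm (g0 ψ) ((mg (φ (FreeGroup.of i))).v k)) (J ψ) j = _
  rfl

theorem J_fst (ψ : MulAut (FreeGroup ι)) (i j : ι) : (J (R := R) ψ i j).fst = g0 ψ i j := rfl

theorem g0_mul (ψ φ : MulAut (FreeGroup ι)) :
    g0 (R := R) (ψ * φ) = g0 φ * g0 ψ := by
  ext i j
  rw [← J_fst, J_mul, Matrix.mul_apply, Matrix.mul_apply]
  rw [show ∀ x : SS ι R, x.fst = TrivSqZeroExt.fstHom R R (ι → R) x from fun _ => rfl, map_sum]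
  refine Finset.sum_congr rfl fun k _ => ?_
  rw [map_mul]
  show (sgm (g0 ψ) (J φ i k)).fst * (J ψ k j).fst = _
  rw [sgm_fst, J_fst, J_fst]

theorem det_mul' (ψ φ : MulAut (FreeGroup ι)) :
    (J (R := R) (ψ * φ)).det = sgm (g0 ψ) (J φ).det * (J ψ).det := by
  rw [J_mul, Matrix.det_mul, ← AlgHom.mapMatrix_apply, ← AlgHom.map_det]

theorem J_one : J (R := R) (1 : MulAut (FreeGroup ι)) = 1 := by
  apply Matrix.ext
  intro i j
  show (mg (R := R) (FreeGroup.of i)).v j = _
  rw [mg_of]
  simp only [Matrix.one_apply, Pi.single_apply]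
  simp only [eq_comm]

theorem g0_one : g0 (R := R) (1 : MulAut (FreeGroup ι)) = 1 := by
  ext i j
  rw [← J_fst, J_one, Matrix.one_apply, Matrix.one_apply]
  split_ifs <;> simp

/-- the matrix on the abelianization -/
noncomputable def G : MulAut (FreeGroup ι) →* (Matrix ι ι R)ˣ where
  toFun ψ := ⟨(g0 ψ).transpose, (g0 ψ⁻¹).transpose,
    by rw [← Matrix.transpose_mul, ← g0_mul, mul_inv_cancel, g0_one, Matrix.transpose_one],
    by rw [← Matrix.transpose_mul, ← g0_mul, inv_mul_cancel, g0_one, Matrix.transpose_one]⟩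
  map_one' := by
    apply Units.ext
    show (g0 1).transpose = (1 : Matrix ι ι R)
    rw [g0_one, Matrix.transpose_one]
  map_mul' ψ φ := by
    apply Units.ext
    show (g0 (ψ * φ)).transpose = (g0 ψ).transpose * (g0 φ).transpose
    rw [g0_mul, Matrix.transpose_mul]

theorem G_val (ψ : MulAut (FreeGroup ι)) :
    ((G (R := R) ψ : (Matrix ι ι R)ˣ) : Matrix ι ι R) = (g0 ψ).transpose := rfl

end fox

end Pool.Agent.W7h60.QQ
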