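import Mathlib
import Pool.Agent.TH271.CU.Basic

set_option autoImplicit false
set_option linter.unusedSectionVars false

/-! Quadratic relations between the `N x a = E x a - 1`. -/

namespace Pool.Agent.W7h60.QQ

open Pool.Agent.Helper156.OF Pool.Agent.TH271.CU

section ring

variable {A : Type*} [Ring A]

theorem sq_comm {a b : A} (ha : a * a = 0) (hb : b * b = 0) (hc : a * b = b * a)
    (h2 : ∀ z : A, z + z = 0 → z = 0) (h : (a + b + a * b) * (a + b + a * b) = 0) :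
    a * b = 0 := by
  apply h2
  have e : (a + b + a * b) * (a + b + a * b) = a * a + a * b + (a * a) * b + b * a + b * b +
      (b * a) * b + (a * b) * a + a * (b * b) + (a * b) * (a * b) := by noncomm_ring
  rw [e, ha, hb, ← hc, mul_assoc a b b, hb, mul_assoc a b a, ← hc, ← mul_assoc a a b, ha] at h
  simp only [mul_zero, zero_mul, add_zero, zero_add] at h
  have e2 : a * b * (a * b) = 0 := by
    calc a * b * (a * b) = a * (b * a) * b := by simp only [mul_assoc]
      _ = a * (a * b) * b := by rw [hc]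
      _ = (a * a) * b * b := by simp only [mul_assoc]
      _ = 0 := by rw [ha, zero_mul, zero_mul]
  rw [e2, add_zero] at h
  exact h

theorem sq_anti {a b : A} (ha : a * a = 0) (hb : b * b = 0)
    (h2 : ∀ z : A, z + z = 0 → z = 0) (h : (a + b + a * b) * (a + b + a * b) = 0)
    (h' : (a + -b + a * -b) * (a + -b + a * -b) = 0) :
    a * b = -(b * a) ∧ a * b * a = 0 ∧ b * a * b = 0 := by
  have e : (a + b + a * b) * (a + b + a * b) = a * a + a * b + (a * a) * b + b * a + b * b +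
      (b * a) * b + (a * b) * a + a * (b * b) + (a * b) * (a * b) := by noncomm_ring
  have e' : (a + -b + a * -b) * (a + -b + a * -b) = a * a - a * b - (a * a) * b - b * a + b * b +
      (b * a) * b - (a * b) * a + a * (b * b) + (a * b) * (a * b) := by noncomm_ring
  rw [e, ha, hb] at h
  rw [e', ha, hb] at h'
  simp only [mul_zero, zero_mul, add_zero, zero_add, sub_zero, zero_sub] at h h'
  have s1 : b * a * b + a * b * (a * b) = 0 := by
    apply h2
    have : (b * a * b + a * b * (a * b)) + (b * a * b + a * b * (a * b)) =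
        (a * b + b * a + b * a * b + a * b * a + a * b * (a * b)) +
        (-(a * b) - b * a + b * a * b - a * b * a + a * b * (a * b)) := by abel
    rw [this, h, h', add_zero]
  have s2 : a * b * (a * b) = 0 := by
    have := congrArg (fun z => a * z) s1
    simp only [mul_add, mul_zero] at this
    have e3 : a * (a * b * (a * b)) = 0 := by
      calc a * (a * b * (a * b)) = (a * a) * b * (a * b) := by simp only [mul_assoc]
        _ = 0 := by rw [ha, zero_mul, zero_mul]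
    rw [e3, add_zero] at this
    rw [← this]
    simp only [mul_assoc]
  have s3 : b * a * b = 0 := by rwa [s2, add_zero] at s1
  have s4 : a * b + b * a + a * b * a = 0 := by
    rw [s3, s2, add_zero, add_zero] at h
    exact h
  have s5 : a * b * a = 0 := by
    have := congrArg (fun z => z * a) s4
    simp only [add_mul, zero_mul] at this
    rw [mul_assoc b a a, mul_assoc (a * b) a a, ha, mul_zero, mul_zero, add_zero, add_zero] at this
    exact this
  refine ⟨?_, s5, s3⟩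
  rw [s5, add_zero] at s4
  exact eq_neg_of_add_eq_zero_left s4

end ring

universe u

variable {α : Type} [DecidableEq α] [Fintype α] {A : Type u} [Ring A]

/-- `ρ(x ↦ x a) - 1` -/
def N (ρ : MulAut (FreeGroup α) →* A) (x a : Lt α) : A := ρ (eAut x a) - 1

/-- the hypotheses -/
structure QRel (ρ : MulAut (FreeGroup α) →* A) : Prop where
  two : ∀ z : A, z + z = 0 → z = 0
  sq : ∀ x a : Lt α, x.1 ≠ a.1 → N ρ x a * N ρ x a = 0
  dj : ∀ x a y b : Lt α, x.1 ≠ a.1 → x.1 ≠ y.1 → x.1 ≠ b.1 → a.1 ≠ y.1 → a.1 ≠ b.1 →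
    y.1 ≠ b.1 → N ρ x a * N ρ y b = 0

variable {ρ : MulAut (FreeGroup α) →* A}

theorem rho_eq (x a : Lt α) : ρ (eAut x a) = 1 + N ρ x a := by unfold N; abel

/-- unipotent elements conjugate to `1 + N` have square zero -/
theorem sq_conj {g h : MulAut (FreeGroup α)} (hg : (ρ g - 1) * (ρ g - 1) = 0) :
    (ρ (h * g * h⁻¹) - 1) * (ρ (h * g * h⁻¹) - 1) = 0 := by
  have e1 : ρ h⁻¹ * ρ h = 1 := by rw [← map_mul, inv_mul_cancel, map_one]
  have e2 : ρ h * ρ h⁻¹ = 1 := by rw [← map_mul, mul_inv_cancel, map_one]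
  have e3 : ρ (h * g * h⁻¹) - 1 = ρ h * (ρ g - 1) * ρ h⁻¹ := by
    rw [map_mul, map_mul, mul_sub, sub_mul, mul_one, e2]
  rw [e3]
  calc ρ h * (ρ g - 1) * ρ h⁻¹ * (ρ h * (ρ g - 1) * ρ h⁻¹)
      = ρ h * (ρ g - 1) * (ρ h⁻¹ * ρ h) * (ρ g - 1) * ρ h⁻¹ := by simp only [mul_assoc]
    _ = ρ h * ((ρ g - 1) * (ρ g - 1)) * ρ h⁻¹ := by rw [e1, mul_one]; simp only [mul_assoc]
    _ = 0 := by rw [hg, mul_zero, zero_mul]

theorem pr_conj {g g' h : MulAut (FreeGroup α)} (hg : (ρ g - 1) * (ρ g' - 1) = 0) :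
    (ρ (h * g * h⁻¹) - 1) * (ρ (h * g' * h⁻¹) - 1) = 0 := by
  have e1 : ρ h⁻¹ * ρ h = 1 := by rw [← map_mul, inv_mul_cancel, map_one]
  have e2 : ρ h * ρ h⁻¹ = 1 := by rw [← map_mul, mul_inv_cancel, map_one]
  have e3 : ∀ g, ρ (h * g * h⁻¹) - 1 = ρ h * (ρ g - 1) * ρ h⁻¹ := by
    intro g
    rw [map_mul, map_mul, mul_sub, sub_mul, mul_one, e2]
  rw [e3, e3]
  calc ρ h * (ρ g - 1) * ρ h⁻¹ * (ρ h * (ρ g' - 1) * ρ h⁻¹)
      = ρ h * (ρ g - 1) * (ρ h⁻¹ * ρ h) * (ρ g' - 1) * ρ h⁻¹ := by simp only [mul_assoc]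
    _ = ρ h * ((ρ g - 1) * (ρ g' - 1)) * ρ h⁻¹ := by rw [e1, mul_one]; simp only [mul_assoc]
    _ = 0 := by rw [hg, mul_zero, zero_mul]

namespace QRel

variable (H : QRel ρ)

include H

theorem neg {x a : Lt α} (h : x.1 ≠ a.1) : N ρ x (nv a) = - N ρ x a := by
  have e : ρ (eAut x (nv a)) * ρ (eAut x a) = 1 := by
    rw [rel_aut.e1, ← map_mul, inv_mul_cancel, map_one]
  have e2 : (1 - N ρ x a) * (1 + N ρ x a) = 1 := by
    rw [mul_add, sub_mul, sub_mul, H.sq x a h]
    noncomm_ring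
  have e3 : (1 + N ρ x a) * (1 - N ρ x a) = 1 := by
    rw [mul_sub, add_mul, add_mul, H.sq x a h]
    noncomm_ring
  have e4 : ρ (eAut x (nv a)) = 1 - N ρ x a := by
    calc ρ (eAut x (nv a)) = ρ (eAut x (nv a)) * ((1 + N ρ x a) * (1 - N ρ x a)) := by
          rw [e3, mul_one]
      _ = (ρ (eAut x (nv a)) * ρ (eAut x a)) * (1 - N ρ x a) := by rw [rho_eq x a, mul_assoc]
      _ = _ := by rw [e, one_mul]
  unfold N at e4 ⊢
  rw [e4]
  abel

/-- inverse of `1 + N` -/
theorem rho_inv {x a : Lt α} (h : x.1 ≠ a.1) : ρ (eAut x a)⁻¹ = 1 - N ρ x a := by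
  rw [← rel_aut.e1, rho_eq, H.neg h]
  abel

/-- products of two transvections with the same multiplier -/
theorem same {x y z : Lt α} (h1 : x.1 ≠ y.1) (h2 : x.1 ≠ z.1) (h3 : y.1 ≠ z.1) :
    N ρ x z * N ρ y z = 0 := by
  have k := c4 rel_aut h1 h2 h3
  have h4 := sq_conj (ρ := ρ) (g := eAut y z) (h := (eAut x y)⁻¹) (H.sq y z h3)
  rw [inv_inv, k, map_mul, rho_eq, rho_eq] at h4
  have e : (1 + N ρ x z) * (1 + N ρ y z) - 1 = N ρ x z + N ρ y z + N ρ x z * N ρ y z := by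
    noncomm_ring
  rw [e] at h4
  refine sq_comm (H.sq x z h2) (H.sq y z h3) ?_ H.two h4
  have hc := (rel_aut (α := α).comm_same z x y).eq
  have hc' := congrArg ρ hc
  rw [map_mul, map_mul, rho_eq, rho_eq] at hc'
  have e2 : N ρ x z * N ρ y z = (1 + N ρ x z) * (1 + N ρ y z) - 1 - N ρ x z - N ρ y z := by
    noncomm_ring
  rw [e2, hc']
  noncomm_ring

/-- two transvections of the same letter -/
theorem anti {x y z : Lt α} (h1 : x.1 ≠ y.1) (h2 : x.1 ≠ z.1) (h3 : y.1 ≠ z.1) :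
    N ρ x y * N ρ x z = -(N ρ x z * N ρ x y) ∧ N ρ x y * N ρ x z * N ρ x y = 0 ∧
      N ρ x z * N ρ x y * N ρ x z = 0 := by
  have key : ∀ w : Lt α, w.1 = z.1 →
      (N ρ x y + N ρ x w + N ρ x y * N ρ x w) * (N ρ x y + N ρ x w + N ρ x y * N ρ x w) = 0 := by
    intro w hw
    have h2' : x.1 ≠ w.1 := by rw [hw]; exact h2
    have h3' : y.1 ≠ w.1 := by rw [hw]; exact h3
    have k := c1 rel_aut h1 h2' h3'
    have h4 := sq_conj (ρ := ρ) (g := eAut x y) (h := eAut y w) (H.sq x y h1)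
    rw [k, map_mul, rho_eq, rho_eq] at h4
    have e : (1 + N ρ x y) * (1 + N ρ x w) - 1 = N ρ x y + N ρ x w + N ρ x y * N ρ x w := by
      noncomm_ring
    rwa [e] at h4
  have k1 := key z rfl
  have k2 := key (nv z) rfl
  rw [H.neg h2] at k2
  exact sq_anti (H.sq x y h1) (H.sq x z h2) H.two k1 k2

/-- the commutator -/
theorem rho_comm {x y z : Lt α} (h1 : x.1 ≠ y.1) (h2 : x.1 ≠ z.1) (h3 : y.1 ≠ z.1) :
    ρ (MM eAut x y z) = 1 + (N ρ x y * N ρ x z + N ρ x y * N ρ x z) := by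
  obtain ⟨k1, k2, k3⟩ := H.anti h1 h2 h3
  unfold MM
  rw [map_mul, map_mul, map_mul, H.rho_inv h1, H.rho_inv h2, rho_eq, rho_eq]
  have s1 := H.sq x y h1
  have s2 := H.sq x z h2
  have e : (1 + N ρ x y) * (1 + N ρ x z) * (1 - N ρ x y) * (1 - N ρ x z) =
      1 + N ρ x y * N ρ x z - N ρ x z * N ρ x y - N ρ x y * N ρ x y + N ρ x y * N ρ x y * N ρ x z -
      N ρ x z * N ρ x z + N ρ x z * N ρ x y * N ρ x z - N ρ x y * N ρ x z * N ρ x y -
      N ρ x y * (N ρ x z * N ρ x z) + N ρ x y * N ρ x z * N ρ x y * N ρ x z := by noncomm_ring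
  rw [e, s1, s2, k2, k3]
  have k4 : N ρ x z * N ρ x y = -(N ρ x y * N ρ x z) := by rw [k1, neg_neg]
  rw [k4]
  simp only [zero_mul, mul_zero]
  abel

end QRel

end Pool.Agent.W7h60.QQ
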