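import Mathlib

set_option autoImplicit false
set_option linter.unusedSectionVars false

/-! Matrix units from elements `E i j` (`i ≠ j`) of a ring which satisfy the relations of the
transvections of a sum of copies of the natural module and of its dual. -/

namespace Pool.Agent.W7h60.QQ

section units

variable {ι : Type*} [Fintype ι] [DecidableEq ι]

theorem exists_out {s : Finset ι} (h : s.card < Fintype.card ι) : ∃ a, a ∉ s := by
  by_contra hcon
  push Not at hcon
  have : s = Finset.univ := Finset.eq_univ_iff_forall.2 hcon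
  rw [this, Finset.card_univ] at h
  exact lt_irrefl _ h

theorem out4 (h5 : 5 ≤ Fintype.card ι) (a b c d : ι) : ∃ e, e ≠ a ∧ e ≠ b ∧ e ≠ c ∧ e ≠ d := by
  obtain ⟨e, he⟩ := exists_out (s := ({a, b, c, d} : Finset ι))
    (lt_of_le_of_lt Finset.card_le_four (by omega))
  simp only [Finset.mem_insert, Finset.mem_singleton, not_or] at he
  exact ⟨e, he.1, he.2.1, he.2.2.1, he.2.2.2⟩

variable {A : Type*} [Ring A]

/-- the relations -/
structure TRel (E : ι → ι → A) : Prop where
  zero : ∀ i j k l, i ≠ j → k ≠ l → j ≠ k → i ≠ l → E i j * E k l = 0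
  lie : ∀ i j k, i ≠ j → j ≠ k → i ≠ k → E i j * E j k - E j k * E i j = E i k

theorem TRel.op {E : ι → ι → A} (h : TRel E) :
    TRel (fun i j => MulOpposite.op (-E i j)) where
  zero := by
    intro i j k l h1 h2 h3 h4
    rw [← MulOpposite.op_mul, neg_mul_neg, h.zero k l i j h2 h1 (Ne.symm h4) (Ne.symm h3),
      MulOpposite.op_zero]
  lie := by
    intro i j k h1 h2 h3
    rw [← MulOpposite.op_mul, ← MulOpposite.op_mul, ← MulOpposite.op_sub, neg_mul_neg,
      neg_mul_neg, ← h.lie i j k h1 h2 h3, neg_sub]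

variable {E : ι → ι → A} (h : TRel E) (h5 : 5 ≤ Fintype.card ι)

include h in
theorem TRel.indep {i j k l : ι} (hij : i ≠ j) (hik : i ≠ k) (hkj : k ≠ j) (hil : i ≠ l)
    (hlj : l ≠ j) : E i k * E k j = E i l * E l j := by
  rcases eq_or_ne k l with rfl | hkl
  · rfl
  have e1 := h.lie k l j hkl hlj hkj
  have e2 := h.lie i k l hik hkl hil
  have e3 := h.zero i k l j hik hlj hkl hij
  have e4 : E i k * E k l = E i l + E k l * E i k := by rw [← e2]; abel
  rw [← e1, mul_sub, ← mul_assoc, ← mul_assoc, e3, zero_mul, sub_zero, e4, add_mul, mul_assoc, e3,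
    mul_zero, add_zero]

/-- the off-diagonal unit computed through any third index -/
noncomputable def Xo (E : ι → ι → A) (i j : ι) : A := by
  classical
  exact if hx : ∃ k, i ≠ k ∧ k ≠ j then E i hx.choose * E hx.choose j else 0

include h in
theorem TRel.Xo_eq {i j k : ι} (hij : i ≠ j) (hik : i ≠ k) (hkj : k ≠ j) :
    Xo E i j = E i k * E k j := by
  classical
  have hx : ∃ k, i ≠ k ∧ k ≠ j := ⟨k, hik, hkj⟩
  unfold Xo
  rw [dif_pos hx]
  exact h.indep hij hx.choose_spec.1 hx.choose_spec.2 hik hkj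

include h h5 in
theorem TRel.Xo_mul {i j k : ι} (hij : i ≠ j) (hjk : j ≠ k) (hik : i ≠ k) :
    Xo E i j * Xo E j k = Xo E i k := by
  obtain ⟨a, a1, a2, a3, -⟩ := out4 h5 i j k k
  obtain ⟨b, b1, b2, b3, b4⟩ := out4 h5 i j k a
  rw [h.Xo_eq hij (Ne.symm a1) a2, h.Xo_eq hjk (Ne.symm b2) b3, h.Xo_eq hik (Ne.symm b1) b3]
  have e1 := h.lie a j b a2 (Ne.symm b2) (Ne.symm b4)
  have e2 := h.zero i a j b (Ne.symm a1) (Ne.symm b2) a2 (Ne.symm b1)
  have e3 := h.lie i a b (Ne.symm a1) (Ne.symm b4) (Ne.symm b1)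
  have e4 := h.zero i a b k (Ne.symm a1) b3 (Ne.symm b4) hik
  have e5 : E a j * E j b = E a b + E j b * E a j := by rw [← e1]; abel
  have e6 : E i a * E a b = E i b + E a b * E i a := by rw [← e3]; abel
  calc E i a * E a j * (E j b * E b k) = E i a * (E a j * E j b) * E b k := by
        simp only [mul_assoc]
    _ = E i a * E a b * E b k + E i a * E j b * (E a j * E b k) := by
        rw [e5]; simp only [mul_add, add_mul, mul_assoc]
    _ = (E i b + E a b * E i a) * E b k := by rw [e2, zero_mul, add_zero, e6]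
    _ = E i b * E b k := by rw [add_mul, mul_assoc, e4, mul_zero, add_zero]

include h h5 in
theorem TRel.Xo_zero {i j k l : ι} (hij : i ≠ j) (hkl : k ≠ l) (hjk : j ≠ k) :
    Xo E i j * Xo E k l = 0 := by
  obtain ⟨a, a1, a2, -, -⟩ := out4 h5 i j k l
  obtain ⟨b, b1, b2, b3, -⟩ := out4 h5 k l a a
  rw [h.Xo_eq hij (Ne.symm a1) a2, h.Xo_eq hkl (Ne.symm b1) b2]
  calc E i a * E a j * (E k b * E b l) = E i a * (E a j * E k b) * E b l := by
        simp only [mul_assoc]
    _ = 0 := by rw [h.zero a j k b a2 (Ne.symm b1) hjk (Ne.symm b3), mul_zero, zero_mul]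

/-- the matrix units -/
noncomputable def Xu (E : ι → ι → A) (i j : ι) : A := by
  classical
  exact if hx : ∃ k, i ≠ k ∧ k ≠ j then Xo E i hx.choose * Xo E hx.choose j else 0

include h h5 in
theorem TRel.Xu_eq {i j k : ι} (hik : i ≠ k) (hkj : k ≠ j) :
    Xu E i j = Xo E i k * Xo E k j := by
  classical
  have hx : ∃ k, i ≠ k ∧ k ≠ j := ⟨k, hik, hkj⟩
  unfold Xu
  rw [dif_pos hx]
  obtain ⟨a1, a2⟩ := hx.choose_spec
  generalize hx.choose = a at a1 a2
  rcases eq_or_ne a k with rfl | hak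
  · rfl
  rcases eq_or_ne i j with rfl | hij
  · rw [← h.Xo_mul h5 a1 hak hik, mul_assoc, h.Xo_mul h5 hak hkj a2]
  · rw [h.Xo_mul h5 a1 a2 hij, h.Xo_mul h5 hik hkj hij]

include h h5 in
theorem TRel.Xu_off {i j : ι} (hij : i ≠ j) : Xu E i j = Xo E i j := by
  obtain ⟨a, a1, a2, -, -⟩ := out4 h5 i j j j
  rw [h.Xu_eq h5 (Ne.symm a1) a2, h.Xo_mul h5 (Ne.symm a1) a2 hij]

include h h5 in
theorem TRel.Xu_mul (i j k l : ι) : Xu E i j * Xu E k l = if j = k then Xu E i l else 0 := by
  obtain ⟨a, a1, a2, a3, a4⟩ := out4 h5 i j k l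
  obtain ⟨b, b1, b2, b3, b4⟩ : ∃ b, b ≠ k ∧ b ≠ l ∧ b ≠ a ∧ b ≠ i := out4 h5 k l a i
  rw [h.Xu_eq h5 (Ne.symm a1) a2, h.Xu_eq h5 (Ne.symm b1) b2]
  split_ifs with hjk
  · subst hjk
    rw [h.Xu_eq h5 (Ne.symm b4) b2]
    calc Xo E i a * Xo E a j * (Xo E j b * Xo E b l)
        = Xo E i a * (Xo E a j * Xo E j b) * Xo E b l := by simp only [mul_assoc]
      _ = _ := by
        rw [h.Xo_mul h5 a2 (Ne.symm b1) (Ne.symm b3), h.Xo_mul h5 (Ne.symm a1) (Ne.symm b3)
          (Ne.symm b4)]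
  · calc Xo E i a * Xo E a j * (Xo E k b * Xo E b l)
        = Xo E i a * (Xo E a j * Xo E k b) * Xo E b l := by simp only [mul_assoc]
      _ = 0 := by
        rw [h.Xo_zero h5 a2 (Ne.symm b1) hjk, mul_zero, zero_mul]

/-- the dual matrix units, as elements of the ring -/
noncomputable def Uu (E : ι → ι → A) (i j : ι) : A :=
  (Xu (fun i j => MulOpposite.op (-E i j)) i j).unop

include h h5 in
theorem TRel.Uu_mul (i j k l : ι) : Uu E k l * Uu E i j = if j = k then Uu E i l else 0 := by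
  unfold Uu
  rw [← MulOpposite.unop_mul, h.op.Xu_mul h5]
  split_ifs <;> rfl

include h h5 in
theorem TRel.Uu_off {i j k : ι} (hij : i ≠ j) (hik : i ≠ k) (hkj : k ≠ j) :
    Uu E i j = E k j * E i k := by
  unfold Uu
  rw [h.op.Xu_off h5 hij, h.op.Xo_eq hij hik hkj, ← MulOpposite.op_mul, MulOpposite.unop_op,
    neg_mul_neg]

include h h5 in
theorem TRel.E_eq {i j : ι} (hij : i ≠ j) : E i j = Xu E i j - Uu E i j := by
  obtain ⟨a, a1, a2, -, -⟩ := out4 h5 i j j j
  rw [h.Xu_off h5 hij, h.Xo_eq hij (Ne.symm a1) a2, h.Uu_off h5 hij (Ne.symm a1) a2,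
    h.lie i a j (Ne.symm a1) a2 hij]

include h h5 in
theorem TRel.Uu_eq (i j k : ι) :
    Uu E i j = Uu E k j * Uu E i k := by
  rw [h.Uu_mul h5, if_pos rfl]

include h h5 in
theorem TRel.XU {i j k l : ι} : Xu E i j * Uu E k l = 0 := by
  obtain ⟨a, a1, a2, a3, a4⟩ := out4 h5 i j k l
  obtain ⟨b, b1, b2, b3, b4⟩ := out4 h5 k l j a
  obtain ⟨c, c1, c2, c3, c4⟩ := out4 h5 a j l b
  obtain ⟨d, d1, d2, d3, d4⟩ := out4 h5 l b j c
  -- `X i j = X i a * X a j`, `X a j = E a c * E c j`; `U k l = U b l * U k b`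
  rw [h.Xu_eq h5 (Ne.symm a1) a2, h.Xo_eq a2 (Ne.symm c1) c2, h.Uu_eq h5 k l b,
    h.Uu_off h5 (Ne.symm (Ne.symm b2)) (Ne.symm d2) d1]
  -- ... `E c j * (E d l * E b d)`
  have e : E c j * E d l = 0 := h.zero c j d l c2 d1 (Ne.symm d3) c3
  calc Xo E i a * (E a c * E c j) * (E d l * E b d * Uu E k b)
      = Xo E i a * E a c * (E c j * E d l) * (E b d * Uu E k b) := by simp only [mul_assoc]
    _ = 0 := by rw [e, mul_zero, zero_mul]

include h h5 in
theorem TRel.UX {i j k l : ι} : Uu E k l * Xu E i j = 0 := by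
  obtain ⟨a, a1, a2, a3, a4⟩ := out4 h5 i j k l
  obtain ⟨b, b1, b2, b3, b4⟩ := out4 h5 k l i a
  obtain ⟨c, c1, c2, c3, c4⟩ := out4 h5 i a k b
  obtain ⟨d, d1, d2, d3, d4⟩ := out4 h5 k b i c
  -- `X i j = X i a * X a j`, `X i a = E i c * E c a`; `U k l = U b l * U k b`,
  -- `U k b = E d b * E k d`
  rw [h.Xu_eq h5 (Ne.symm a1) a2, h.Xo_eq (Ne.symm a1) (Ne.symm c1) c2,
    h.Uu_eq h5 k l b, h.Uu_off h5 (Ne.symm b1) (Ne.symm d1) d2]
  have e : E k d * E i c = 0 := h.zero k d i c (Ne.symm d1) (Ne.symm c1) d3 (Ne.symm c3)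
  calc Uu E b l * (E d b * E k d) * (E i c * E c a * Xo E a j)
      = Uu E b l * E d b * (E k d * E i c) * (E c a * Xo E a j) := by simp only [mul_assoc]
    _ = 0 := by rw [e, mul_zero, zero_mul]

end units

section theta

variable {ι : Type*} [Fintype ι] [DecidableEq ι]
variable {R A : Type*} [CommRing R] [Ring A] [Algebra R A]

/-- the linear extension of the matrix units -/
noncomputable def LX (X : ι → ι → A) (M : Matrix ι ι R) : A := ∑ i, ∑ j, M i j • X i j

theorem LX_add (X : ι → ι → A) (M N : Matrix ι ι R) : LX X (M + N) = LX X M + LX X N := by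
  unfold LX
  simp only [Matrix.add_apply, add_smul, Finset.sum_add_distrib]

theorem LX_smul (X : ι → ι → A) (c : R) (M : Matrix ι ι R) : LX X (c • M) = c • LX X M := by
  unfold LX
  simp only [Matrix.smul_apply, Finset.smul_sum, smul_smul, smul_eq_mul]

theorem LX_single (X : ι → ι → A) (i j : ι) (c : R) :
    LX X (Matrix.single i j c) = c • X i j := by
  unfold LX
  rw [Finset.sum_eq_single i, Finset.sum_eq_single j]
  · rw [Matrix.single_apply_same]
  · intro b _ hb
    have : Matrix.single i j c i b = 0 :=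
      Matrix.single_apply_of_ne i j c i b (by rintro ⟨-, rfl⟩; exact hb rfl)
    rw [this, zero_smul]
  · intro h; exact absurd (Finset.mem_univ _) h
  · intro b _ hb
    apply Finset.sum_eq_zero
    intro c' _
    have : Matrix.single i j c b c' = 0 :=
      Matrix.single_apply_of_ne i j c b c' (by rintro ⟨rfl, -⟩; exact hb rfl)
    rw [this, zero_smul]
  · intro h; exact absurd (Finset.mem_univ _) h

theorem LX_expand (X Y : ι → ι → A) (M N : Matrix ι ι R) :
    LX X M * LX Y N = ∑ i, ∑ j, ∑ k, ∑ l, (M i j * N k l) • (X i j * Y k l) := by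
  unfold LX
  rw [Finset.sum_mul]
  refine Finset.sum_congr rfl fun i _ => ?_
  rw [Finset.sum_mul]
  refine Finset.sum_congr rfl fun j _ => ?_
  rw [Finset.mul_sum]
  refine Finset.sum_congr rfl fun k _ => ?_
  rw [Finset.mul_sum]
  refine Finset.sum_congr rfl fun l _ => ?_
  rw [smul_mul_smul_comm]

theorem LX_mul {X : ι → ι → A} (hX : ∀ i j k l, X i j * X k l = if j = k then X i l else 0)
    (M N : Matrix ι ι R) : LX X M * LX X N = LX X (M * N) := by
  rw [LX_expand]
  unfold LX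
  refine Finset.sum_congr rfl fun i _ => ?_
  have e : ∀ j, (∑ k, ∑ l, (M i j * N k l) • (X i j * X k l)) =
      ∑ l, (M i j * N j l) • X i l := by
    intro j
    rw [Finset.sum_eq_single j]
    · refine Finset.sum_congr rfl fun l _ => ?_
      rw [hX, if_pos rfl]
    · intro k _ hk
      apply Finset.sum_eq_zero
      intro l _
      rw [hX, if_neg (Ne.symm hk), smul_zero]
    · intro h; exact absurd (Finset.mem_univ _) h
  rw [Finset.sum_congr rfl fun j _ => e j, Finset.sum_comm]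
  refine Finset.sum_congr rfl fun l _ => ?_
  rw [Matrix.mul_apply, Finset.sum_smul]

theorem LX_mul' {X : ι → ι → A} (hX : ∀ i j k l, X k l * X i j = if j = k then X i l else 0)
    (M N : Matrix ι ι R) : LX X M * LX X N = LX X (N * M) := by
  rw [LX_expand]
  unfold LX
  -- left: ∑ k l i j, (M k l * N i j) • (X k l * X i j)
  have e : ∀ k l, (∑ i, ∑ j, (M k l * N i j) • (X k l * X i j)) =
      ∑ i, (N i k * M k l) • X i l := by
    intro k l
    refine Finset.sum_congr rfl fun i _ => ?_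
    rw [Finset.sum_eq_single k]
    · rw [hX, if_pos rfl, mul_comm (M k l)]
    · intro j _ hj
      rw [hX, if_neg hj, smul_zero]
    · intro h; exact absurd (Finset.mem_univ _) h
  have e2 : ∀ k, (∑ l, ∑ i, ∑ j, (M k l * N i j) • (X k l * X i j)) =
      ∑ i, ∑ l, (N i k * M k l) • X i l := by
    intro k
    rw [Finset.sum_congr rfl fun l _ => e k l, Finset.sum_comm]
  rw [Finset.sum_congr rfl fun k _ => e2 k, Finset.sum_comm]
  refine Finset.sum_congr rfl fun i _ => ?_
  rw [Finset.sum_comm]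
  refine Finset.sum_congr rfl fun l _ => ?_
  rw [Matrix.mul_apply, Finset.sum_smul]

theorem LX_zero {X Y : ι → ι → A} (hX : ∀ i j k l, X i j * Y k l = 0)
    (M N : Matrix ι ι R) : LX X M * LX Y N = 0 := by
  rw [LX_expand]
  refine Finset.sum_eq_zero fun i _ => Finset.sum_eq_zero fun j _ => Finset.sum_eq_zero fun k _ =>
    Finset.sum_eq_zero fun l _ => ?_
  rw [hX, smul_zero]

/-- the representation of the units of the matrix ring -/
noncomputable def Th (E : ι → ι → A) (g : (Matrix ι ι R)ˣ) : A :=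
  1 - LX (Xu E) (1 : Matrix ι ι R) - LX (Uu E) (1 : Matrix ι ι R) + LX (Xu E) (g : Matrix ι ι R) +
    LX (Uu E) ((g⁻¹ : (Matrix ι ι R)ˣ) : Matrix ι ι R)

variable {E : ι → ι → A} (h : TRel E) (h5 : 5 ≤ Fintype.card ι)

theorem Th_one : Th E (1 : (Matrix ι ι R)ˣ) = 1 := by
  unfold Th
  rw [inv_one, Units.val_one]
  abel

include h h5 in
theorem Th_mul (g g' : (Matrix ι ι R)ˣ) : Th E (g * g') = Th E g * Th E g' := by
  unfold Th
  have x1 := fun M N : Matrix ι ι R => LX_mul (h.Xu_mul h5) M N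
  have x2 := fun M N : Matrix ι ι R => LX_mul' (fun i j k l => h.Uu_mul h5 i j k l) M N
  have x3 := fun M N : Matrix ι ι R => LX_zero (X := Xu E) (Y := Uu E)
    (fun i j k l => h.XU h5) M N
  have x4 := fun M N : Matrix ι ι R => LX_zero (X := Uu E) (Y := Xu E)
    (fun i j k l => h.UX h5) M N
  simp only [mul_add, add_mul, mul_sub, sub_mul, one_mul, mul_one, x1, x2, x3, x4, mul_inv_rev,
    Units.val_mul]
  abel

/-- the elementary matrix as a unit -/
def tv (i j : ι) (hij : i ≠ j) (c : R) : (Matrix ι ι R)ˣ where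
  val := Matrix.transvection i j c
  inv := Matrix.transvection i j (-c)
  val_inv := by
    rw [Matrix.transvection_mul_transvection_same i j hij, add_neg_cancel,
      Matrix.transvection_zero]
  inv_val := by
    rw [Matrix.transvection_mul_transvection_same i j hij, neg_add_cancel,
      Matrix.transvection_zero]

include h h5 in
theorem Th_tv (i j : ι) (hij : i ≠ j) (c : R) :
    Th E (tv i j hij c) = 1 + c • E i j := by
  have e1 : ((tv i j hij c : (Matrix ι ι R)ˣ) : Matrix ι ι R) = 1 + Matrix.single i j c := rfl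
  have e2 : (((tv i j hij c)⁻¹ : (Matrix ι ι R)ˣ) : Matrix ι ι R) =
    1 + Matrix.single i j (-c) := rfl
  unfold Th
  rw [e1, e2, LX_add, LX_add, LX_single, LX_single]
  rw [show c • E i j = c • Xu E i j - c • Uu E i j by rw [← smul_sub, ← h.E_eq h5 hij], neg_smul]
  abel

end theta

end Pool.Agent.W7h60.QQ
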