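import Mathlib
import Pool.Agent.W7h60.QQ.Quad
import Pool.Agent.W7h60.QQ.Units

set_option autoImplicit false
set_option linter.unusedSectionVars false

/-! All products of two `N`'s in general position vanish; the partial conjugations. -/

namespace Pool.Agent.W7h60.QQ

open Pool.Agent.Helper156.OF Pool.Agent.TH271.CU

universe u

variable {α : Type} [DecidableEq α] [Fintype α] {A : Type u} [Ring A]

theorem conj_MM {p x y z : Lt α} (h1 : p.1 ≠ x.1) (h2 : p.1 ≠ y.1) (h3 : p.1 ≠ z.1)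
    (h4 : x.1 ≠ y.1) (h5 : x.1 ≠ z.1) :
    MM eAut x y z * eAut p x * (MM eAut x y z)⁻¹ = eAut p x * MM eAut p y z := by
  have R := rel_aut (α := α)
  have hpx : x ≠ p := fun e => h1 (e ▸ rfl)
  have k1 := c1 R h1 h2 h4
  have k2 := c1 R h1 h3 h5
  have k3 := c2 R h1 h2 h4
  have k4 := c2 R h1 h3 h5
  have cyy : Commute (eAut x y) (eAut p y) := R.e2 x p y y hpx h4 h2
  have cyz : Commute (eAut x y) (eAut p z) := R.e2 x p y z hpx h5 h2
  have czy : Commute (eAut x z) (eAut p y) := R.e2 x p z y hpx h4 h3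
  have czz : Commute (eAut x z) (eAut p z) := R.e2 x p z z hpx h5 h3
  set a := eAut x y
  set b := eAut x z
  set e := eAut p x
  set c := eAut p y
  set d := eAut p z
  -- k1 : a * e * a⁻¹ = e * c, k2 : b * e * b⁻¹ = e * d, k3 : a⁻¹ * e * a = e * c⁻¹
  have q1 : a * e = e * c * a := by rw [← k1]; group
  have q2 : b * e = e * d * b := by rw [← k2]; group
  have q3 : a⁻¹ * e = e * c⁻¹ * a⁻¹ := by rw [← k3]; group
  have q4 : b⁻¹ * e = e * d⁻¹ * b⁻¹ := by rw [← k4]; group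
  show a * b * a⁻¹ * b⁻¹ * e * (a * b * a⁻¹ * b⁻¹)⁻¹ = e * (c * d * c⁻¹ * d⁻¹)
  have r1 : a * b * a⁻¹ * b⁻¹ * e = e * (c * d * c⁻¹ * d⁻¹) * (a * b * a⁻¹ * b⁻¹) := by
    calc a * b * a⁻¹ * b⁻¹ * e = a * b * a⁻¹ * (b⁻¹ * e) := by group
      _ = a * b * (a⁻¹ * e) * d⁻¹ * b⁻¹ := by rw [q4]; group
      _ = a * (b * e) * c⁻¹ * (a⁻¹ * d⁻¹) * b⁻¹ := by rw [q3]; group
      _ = a * (b * e) * c⁻¹ * (d⁻¹ * a⁻¹) * b⁻¹ := by rw [(cyz.inv_inv).eq]
      _ = (a * e) * d * (b * c⁻¹) * d⁻¹ * a⁻¹ * b⁻¹ := by rw [q2]; group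
      _ = (a * e) * d * (c⁻¹ * b) * d⁻¹ * a⁻¹ * b⁻¹ := by rw [(czy.inv_right).eq]
      _ = (a * e) * d * c⁻¹ * (b * d⁻¹) * a⁻¹ * b⁻¹ := by group
      _ = (a * e) * d * c⁻¹ * (d⁻¹ * b) * a⁻¹ * b⁻¹ := by rw [(czz.inv_right).eq]
      _ = e * c * (a * d) * c⁻¹ * d⁻¹ * b * a⁻¹ * b⁻¹ := by rw [q1]; group
      _ = e * c * (d * a) * c⁻¹ * d⁻¹ * b * a⁻¹ * b⁻¹ := by rw [cyz.eq]
      _ = e * c * d * (a * c⁻¹) * d⁻¹ * b * a⁻¹ * b⁻¹ := by group
      _ = e * c * d * (c⁻¹ * a) * d⁻¹ * b * a⁻¹ * b⁻¹ := by rw [(cyy.inv_right).eq]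
      _ = e * c * d * c⁻¹ * (a * d⁻¹) * b * a⁻¹ * b⁻¹ := by group
      _ = e * c * d * c⁻¹ * (d⁻¹ * a) * b * a⁻¹ * b⁻¹ := by rw [(cyz.inv_right).eq]
      _ = _ := by group
  rw [r1]
  group

variable {ρ : MulAut (FreeGroup α) →* A}

namespace QRel

variable (H : QRel ρ)

include H

/-- triple products of transvections of the same letter -/
theorem triple {p x y z : Lt α} (h1 : p.1 ≠ x.1) (h2 : p.1 ≠ y.1) (h3 : p.1 ≠ z.1)
    (h4 : x.1 ≠ y.1) (h5 : x.1 ≠ z.1) (h6 : y.1 ≠ z.1) :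
    N ρ p x * N ρ p y * N ρ p z = 0 := by
  have k := sq_conj (ρ := ρ) (g := eAut p x) (h := MM eAut x y z) (H.sq p x h1)
  rw [conj_MM h1 h2 h3 h4 h5, map_mul, H.rho_comm h2 h3 h6, rho_eq] at k
  obtain ⟨a1, a2, a3⟩ := H.anti h2 h3 h6
  obtain ⟨b1, b2, b3⟩ := H.anti h1 h2 h4
  obtain ⟨c1, c2, c3⟩ := H.anti h1 h3 h5
  have sx := H.sq p x h1
  set a := N ρ p x
  set b := N ρ p y
  set c := N ρ p z
  have e0 : (1 + a) * (1 + (b * c + b * c)) - 1 = a + (b * c + b * c) + a * (b * c + b * c) := by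
    noncomm_ring
  rw [e0] at k
  set D := b * c + b * c with hD
  have e1 : b * c * a = a * (b * c) := by
    have k1 : c * a = -(a * c) := by rw [c1, neg_neg]
    have k2 : b * a = -(a * b) := by rw [b1, neg_neg]
    rw [mul_assoc, k1, mul_neg, ← mul_assoc, k2, neg_mul, neg_neg, mul_assoc]
  have e2 : D * a = a * D := by rw [hD, add_mul, e1, mul_add]
  have e3 : D * D = 0 := by
    have : b * c * (b * c) = 0 := by rw [← mul_assoc, a2, zero_mul]
    rw [hD]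
    simp only [add_mul, mul_add, this, add_zero]
  have e4 : (a + D + a * D) * (a + D + a * D) = a * D + a * D := by
    have x1 : (a + D + a * D) * (a + D + a * D) = a * a + a * D + a * a * D + D * a + D * D +
        D * a * D + a * (D * a) + a * (D * D) + a * (D * a) * D := by noncomm_ring
    rw [x1, e2, sx, e3]
    have x2 : a * D * D = 0 := by rw [mul_assoc, e3, mul_zero]
    have x3 : a * (a * D) = 0 := by rw [← mul_assoc, sx, zero_mul]
    rw [x2, x3]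
    simp only [zero_mul, mul_zero, add_zero, zero_add]
  rw [e4] at k
  have k5 := H.two _ k
  rw [hD, mul_add] at k5
  have k6 := H.two _ k5
  rw [mul_assoc]
  exact k6

/-- products of two transvections of the same letter -/
theorem samel (h4 : 4 ≤ Fintype.card α) {p y z : Lt α} (h1 : p.1 ≠ y.1) (h2 : p.1 ≠ z.1)
    (h3 : y.1 ≠ z.1) : N ρ p z * N ρ p y = 0 := by
  obtain ⟨i, hi⟩ := exists_out (s := ({p.1, y.1, z.1} : Finset α))
    (lt_of_le_of_lt Finset.card_le_three (by omega))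
  simp only [Finset.mem_insert, Finset.mem_singleton, not_or] at hi
  obtain ⟨i1, i2, i3⟩ := hi
  obtain ⟨x, hx⟩ : ∃ x : Lt α, x.1 = i := ⟨(i, true), rfl⟩
  rw [← hx] at i1 i2 i3
  have k1 := H.dj x z p y i3 i1 i2 (Ne.symm h2) (Ne.symm h3) h1
  have k1' := k1
  have k2 := pr_conj (ρ := ρ) (g := eAut x z) (g' := eAut p y) (h := (eAut p x)⁻¹) k1
  rw [inv_inv, c4 rel_aut (Ne.symm i1) h2 i3, map_mul, rho_eq, rho_eq] at k2
  have k3 := H.same (Ne.symm i1) h2 i3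
  rw [map_mul, map_mul, H.rho_inv (Ne.symm i1), rho_eq, rho_eq] at k2
  obtain ⟨a1, a2, a3⟩ := H.anti (Ne.symm i1) h1 i2
  have k4 := H.triple h2 h1 (Ne.symm i1) (Ne.symm h3) (Ne.symm i3) (Ne.symm i2)
  have sx := H.sq p x (Ne.symm i1)
  set a := N ρ p x
  set b := N ρ p y
  set c := N ρ p z
  set d := N ρ x z
  have e1 : (1 + c) * (1 + d) - 1 = c + d := by
    have : (1 + c) * (1 + d) - 1 = c + d + c * d := by noncomm_ring
    rw [this, k3, add_zero]
  have e2 : (1 - a) * (1 + b) * (1 + a) - 1 = b + (b * a + b * a) := by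
    have : (1 - a) * (1 + b) * (1 + a) - 1 = b + b * a - a * b - a * a - a * b * a := by
      noncomm_ring
    rw [this, sx, a2, a1]
    abel
  rw [e1, e2] at k2
  have e3 : (c + d) * (b + (b * a + b * a)) = c * b + (c * b * a + c * b * a) + d * b * (1 + a + a) := by
    noncomm_ring
  rw [e3, k4, k1'] at k2
  simpa using k2

/-- a right and a left transvection of the same letter -/
theorem opp (h4 : 4 ≤ Fintype.card α) {p y z : Lt α} (h1 : p.1 ≠ y.1) (h2 : p.1 ≠ z.1)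
    (h3 : y.1 ≠ z.1) : N ρ (nv p) z * N ρ p y = 0 := by
  obtain ⟨i, hi⟩ := exists_out (s := ({p.1, y.1, z.1} : Finset α))
    (lt_of_le_of_lt Finset.card_le_three (by omega))
  simp only [Finset.mem_insert, Finset.mem_singleton, not_or] at hi
  obtain ⟨i1, i2, i3⟩ := hi
  obtain ⟨x, hx⟩ : ∃ x : Lt α, x.1 = i := ⟨(i, true), rfl⟩
  rw [← hx] at i1 i2 i3
  have k1 := H.dj x z p y i3 i1 i2 (Ne.symm h2) (Ne.symm h3) h1
  have i1' : (nv p).1 ≠ x.1 := Ne.symm i1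
  have k2 := pr_conj (ρ := ρ) (g := eAut x z) (g' := eAut p y) (h := (eAut (nv p) x)⁻¹) k1
  have hc : Commute (eAut p y) (eAut (nv p) x) := RL rel_aut h1 (Ne.symm i1)
  have hc' : (eAut (nv p) x)⁻¹ * eAut p y * eAut (nv p) x = eAut p y := by
    rw [mul_assoc, hc.eq]
    group
  rw [inv_inv, c4 rel_aut i1' h2 i3, hc', map_mul, rho_eq, rho_eq] at k2
  have k3 := H.same (x := nv p) (y := x) (z := z) i1' h2 i3
  have e1 : (1 + N ρ (nv p) z) * (1 + N ρ x z) - 1 = N ρ (nv p) z + N ρ x z := by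
    have : (1 + N ρ (nv p) z) * (1 + N ρ x z) - 1 =
      N ρ (nv p) z + N ρ x z + N ρ (nv p) z * N ρ x z := by noncomm_ring
    rw [this, k3, add_zero]
  rw [e1, rho_eq, add_sub_cancel_left, add_mul, k1, add_zero] at k2
  exact k2

/-- the commutator transvections act trivially -/
theorem rho_MM (h4 : 4 ≤ Fintype.card α) {x y z : Lt α} (h1 : x.1 ≠ y.1) (h2 : x.1 ≠ z.1)
    (h3 : y.1 ≠ z.1) : ρ (MM eAut x y z) = 1 := by
  rw [H.rho_comm h1 h2 h3, H.samel h4 h2 h1 (Ne.symm h3), add_zero, add_zero]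

omit H in
theorem comm_of_conj {g h : MulAut (FreeGroup α)} (e : ρ (g * h * g⁻¹) = ρ h) :
    ρ g * ρ h = ρ h * ρ g := by
  have e1 : ρ g⁻¹ * ρ g = 1 := by rw [← map_mul, inv_mul_cancel, map_one]
  calc ρ g * ρ h = ρ g * ρ h * (ρ g⁻¹ * ρ g) := by rw [e1, mul_one]
    _ = ρ (g * h * g⁻¹) * ρ g := by rw [map_mul, map_mul]; simp only [mul_assoc]
    _ = _ := by rw [e]

theorem KK_c1 (h4 : 4 ≤ Fintype.card α) {y q z : Lt α} (h1 : y.1 ≠ q.1) (h2 : y.1 ≠ z.1)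
    (h3 : q.1 ≠ z.1) : ρ (eAut y q) * ρ (KK eAut y z) = ρ (KK eAut y z) * ρ (eAut y q) := by
  apply comm_of_conj
  rw [E_KK_same rel_aut h1 h2, map_mul, H.rho_MM h4 h1 h2 h3, one_mul]

theorem KK_c2 (h4 : 4 ≤ Fintype.card α) {y q z : Lt α} (h1 : y.1 ≠ q.1) (h2 : y.1 ≠ z.1)
    (h3 : q.1 ≠ z.1) : ρ (eAut q y) * ρ (KK eAut y z) = ρ (KK eAut y z) * ρ (eAut q y) := by
  apply comm_of_conj
  rw [E_KK_third rel_aut (Ne.symm h1) h3 h2, map_mul,
    H.rho_MM h4 (Ne.symm h1) (show q.1 ≠ (nv z).1 from h3) (show y.1 ≠ (nv z).1 from h2), one_mul]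

/-- `ρ(KK y z)` does not depend on `y` -/
theorem KK_indep (h4 : 4 ≤ Fintype.card α) {y q z : Lt α} (h1 : y.1 ≠ q.1) (h2 : y.1 ≠ z.1)
    (h3 : q.1 ≠ z.1) : ρ (KK eAut y z) = ρ (KK eAut q z) := by
  have R := rel_aut (α := α)
  set σ := sg y q with hσ
  have s1 : (σ : Equiv.Perm (Lt α)) y = nv q := sg_left
  have s2 : (σ : Equiv.Perm (Lt α)) q = y := sg_right h1
  have s3 : ∀ c : Lt α, c.1 ≠ y.1 → c.1 ≠ q.1 → (σ : Equiv.Perm (Lt α)) c = c :=
    fun c => sg_other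
  have k1 := R.e4 y q σ h1 s1 s2 s3
  have k2 : toAut σ = eAut (nv y) q * eAut q y * (eAut y q)⁻¹ := by rw [k1]; group
  have h1' : (nv y).1 ≠ q.1 := h1
  have h2' : (nv y).1 ≠ z.1 := h2
  have m1 : ρ (eAut (nv y) q) * ρ (KK eAut y z) = ρ (KK eAut y z) * ρ (eAut (nv y) q) := by
    have := H.KK_c1 h4 h1' h2' h3
    rwa [KK_nv R] at this
  have m2 := H.KK_c2 h4 h1 h2 h3
  have m3 := H.KK_c1 h4 h1 h2 h3
  have m4 : ρ (eAut y q)⁻¹ * ρ (KK eAut y z) = ρ (KK eAut y z) * ρ (eAut y q)⁻¹ := by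
    rw [← R.e1]
    exact H.KK_c1 h4 (show y.1 ≠ (nv q).1 from h1) h2 (show (nv q).1 ≠ z.1 from h3)
  have m5 : ρ (toAut σ) * ρ (KK eAut y z) = ρ (KK eAut y z) * ρ (toAut σ) := by
    rw [k2, map_mul, map_mul, mul_assoc, m4, ← mul_assoc, mul_assoc (ρ (eAut (nv y) q)), m2,
      ← mul_assoc, m1]
    simp only [mul_assoc]
  have m6 := congrArg ρ (W_KK R σ y z)
  rw [s1, s3 z (Ne.symm h2) (Ne.symm h3), KK_nv R, map_mul, map_mul, m5, mul_assoc, ← map_mul,
    mul_inv_cancel, map_one, mul_one] at m6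
  exact m6

end QRel

/-- `ρ` of the partial conjugation by `z`, minus one -/
noncomputable def cc (ρ : MulAut (FreeGroup α) →* A) (z : Lt α) : A := by
  classical
  exact if h : ∃ y : Lt α, y.1 ≠ z.1 then ρ (KK eAut h.choose z) - 1 else 0

namespace QRel

variable (H : QRel ρ)

include H

theorem rho_KK (h4 : 4 ≤ Fintype.card α) {y z : Lt α} (h : y.1 ≠ z.1) :
    ρ (KK eAut y z) = 1 + cc ρ z := by
  classical
  have hx : ∃ y : Lt α, y.1 ≠ z.1 := ⟨y, h⟩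
  unfold cc
  rw [dif_pos hx, add_sub_cancel]
  have h1 := hx.choose_spec
  generalize hx.choose = q at h1
  by_cases hq : y.1 = q.1
  · rcases fst_eq_iff.1 hq with rfl | rfl
    · rfl
    · rw [KK_nv rel_aut]
  · exact H.KK_indep h4 hq h h1

theorem cc_eq (h4 : 4 ≤ Fintype.card α) {y z : Lt α} (h : y.1 ≠ z.1) :
    cc ρ z = N ρ y z + N ρ (nv y) z + N ρ y z * N ρ (nv y) z := by
  have h1 := H.rho_KK h4 h
  unfold KK at h1
  rw [map_mul, rho_eq, rho_eq] at h1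
  have : cc ρ z = (1 + cc ρ z) - 1 := by abel
  rw [this, ← h1]
  noncomm_ring

theorem N_cc (h4 : 4 ≤ Fintype.card α) {q z : Lt α} (h : q.1 ≠ z.1) :
    N ρ q z * cc ρ z = 0 := by
  obtain ⟨i, hi⟩ := exists_out (s := ({q.1, z.1} : Finset α))
    (lt_of_le_of_lt Finset.card_le_two (by omega))
  simp only [Finset.mem_insert, Finset.mem_singleton, not_or] at hi
  obtain ⟨i1, i2⟩ := hi
  obtain ⟨x, hx⟩ : ∃ x : Lt α, x.1 = i := ⟨(i, true), rfl⟩
  rw [← hx] at i1 i2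
  rw [H.cc_eq h4 i2, mul_add, mul_add, ← mul_assoc, H.same (Ne.symm i1) h i2,
    H.same (y := nv x) (Ne.symm i1) h i2, zero_mul, add_zero, add_zero]

theorem cc_N (h4 : 4 ≤ Fintype.card α) {q z : Lt α} (h : q.1 ≠ z.1) :
    cc ρ z * N ρ q z = 0 := by
  obtain ⟨i, hi⟩ := exists_out (s := ({q.1, z.1} : Finset α))
    (lt_of_le_of_lt Finset.card_le_two (by omega))
  simp only [Finset.mem_insert, Finset.mem_singleton, not_or] at hi
  obtain ⟨i1, i2⟩ := hi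
  obtain ⟨x, hx⟩ : ∃ x : Lt α, x.1 = i := ⟨(i, true), rfl⟩
  rw [← hx] at i1 i2
  rw [H.cc_eq h4 i2, add_mul, add_mul, mul_assoc, H.same i1 i2 h,
    H.same (x := nv x) i1 i2 h, mul_zero, add_zero, add_zero]

theorem cc_sq (h4 : 4 ≤ Fintype.card α) (z : Lt α) : cc ρ z * cc ρ z = 0 := by
  obtain ⟨i, hi⟩ := exists_out (s := ({z.1} : Finset α))
    (lt_of_le_of_lt (by rw [Finset.card_singleton]) (show 1 < Fintype.card α by omega))
  simp only [Finset.mem_singleton] at hi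
  obtain ⟨x, hx⟩ : ∃ x : Lt α, x.1 = i := ⟨(i, true), rfl⟩
  rw [← hx] at hi
  have h' : (nv x).1 ≠ z.1 := hi
  conv_lhs => rw [H.cc_eq h4 hi]
  rw [mul_add, mul_add, ← mul_assoc, ← H.cc_eq h4 hi, H.cc_N h4 hi, H.cc_N h4 h', zero_mul,
    add_zero, add_zero]

theorem N_nv (h4 : 4 ≤ Fintype.card α) {y z : Lt α} (h : y.1 ≠ z.1) :
    N ρ (nv y) z = cc ρ z - N ρ y z := by
  have h' : (nv y).1 ≠ z.1 := h
  have k1 := H.cc_eq h4 h
  have k2 := H.N_cc h4 h
  rw [k1, mul_add, mul_add, H.sq y z h, ← mul_assoc, H.sq y z h, zero_mul, zero_add,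
    add_zero] at k2
  rw [k1, k2, add_zero]
  abel

theorem dj_cc (h4 : 5 ≤ Fintype.card α) {x a z : Lt α} (h1 : x.1 ≠ a.1) (h2 : x.1 ≠ z.1)
    (h3 : a.1 ≠ z.1) : N ρ x a * cc ρ z = 0 := by
  obtain ⟨i, i1, i2, i3, -⟩ := out4 h4 x.1 a.1 z.1 z.1
  obtain ⟨y, hy⟩ : ∃ y : Lt α, y.1 = i := ⟨(i, true), rfl⟩
  rw [← hy] at i1 i2 i3
  rw [H.cc_eq (by omega) i3, mul_add, mul_add, ← mul_assoc,
    H.dj x a y z h1 (Ne.symm i1) h2 (Ne.symm i2) h3 i3,
    H.dj x a (nv y) z h1 (Ne.symm i1) h2 (Ne.symm i2) h3 i3, zero_mul, add_zero, add_zero]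

theorem cc_dj (h4 : 5 ≤ Fintype.card α) {x a z : Lt α} (h1 : x.1 ≠ a.1) (h2 : x.1 ≠ z.1)
    (h3 : a.1 ≠ z.1) : cc ρ z * N ρ x a = 0 := by
  obtain ⟨i, i1, i2, i3, -⟩ := out4 h4 x.1 a.1 z.1 z.1
  obtain ⟨y, hy⟩ : ∃ y : Lt α, y.1 = i := ⟨(i, true), rfl⟩
  rw [← hy] at i1 i2 i3
  rw [H.cc_eq (by omega) i3, add_mul, add_mul, mul_assoc,
    H.dj y z x a i3 i1 i2 (Ne.symm h2) (Ne.symm h3) h1,
    H.dj (nv y) z x a i3 i1 i2 (Ne.symm h2) (Ne.symm h3) h1, mul_zero, add_zero, add_zero]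

theorem cc_cc (h4 : 5 ≤ Fintype.card α) {z w : Lt α} (h : z.1 ≠ w.1) : cc ρ z * cc ρ w = 0 := by
  obtain ⟨i, i1, i2, -, -⟩ := out4 h4 z.1 w.1 w.1 w.1
  obtain ⟨y, hy⟩ : ∃ y : Lt α, y.1 = i := ⟨(i, true), rfl⟩
  rw [← hy] at i1 i2
  rw [H.cc_eq (by omega) i2, mul_add, mul_add, ← mul_assoc,
    H.cc_dj h4 i2 i1 (Ne.symm h), H.cc_dj h4 (x := nv y) i2 i1 (Ne.symm h), zero_mul, add_zero,
    add_zero]

theorem lie_cc (h4 : 5 ≤ Fintype.card α) {z w : Lt α} (h : z.1 ≠ w.1) :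
    N ρ z w * cc ρ z - cc ρ z * N ρ z w = cc ρ w := by
  obtain ⟨i, i1, i2, -, -⟩ := out4 h4 z.1 w.1 w.1 w.1
  obtain ⟨y, hy⟩ : ∃ y : Lt α, y.1 = i := ⟨(i, true), rfl⟩
  rw [← hy] at i1 i2
  have k := congrArg ρ (E_KK (rel_aut (α := α)) i1 i2 h)
  rw [map_mul, map_mul, map_mul, H.rho_KK (by omega) i1, H.rho_KK (by omega) i2, H.rho_inv h,
    rho_eq] at k
  have s := H.sq z w h
  have t := H.N_cc (by omega) h
  set b := N ρ z w
  set c := cc ρ z
  set d := cc ρ w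
  have e1 : (1 + b) * (1 + c) * (1 - b) = 1 + c + b * c - c * b - b * b - b * c * b := by
    noncomm_ring
  have e2 : (1 + c) * (1 + d) = 1 + c + d := by
    have : (1 + c) * (1 + d) = 1 + c + d + c * d := by noncomm_ring
    rw [this, H.cc_cc h4 h, add_zero]
  rw [e1, e2, s, sub_zero] at k
  have e3 : d = b * c - c * b - b * c * b := by
    calc d = (1 + c + d) - (1 + c) := by abel
      _ = (1 + c + b * c - c * b - b * c * b) - (1 + c) := by rw [← k]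
      _ = _ := by abel
  have e4 : b * c * b = 0 := by
    have := t
    rw [e3, mul_sub, mul_sub, ← mul_assoc, ← mul_assoc, ← mul_assoc, ← mul_assoc, s, zero_mul,
      zero_mul, sub_zero, zero_sub, neg_eq_zero] at this
    exact this
  rw [e3, e4, sub_zero]

/-- the transvections satisfy the relations of matrix units -/
theorem trel (h5 : 5 ≤ Fintype.card α) :
    TRel (fun i j : α => N ρ (j, true) (i, true)) where
  zero := by
    intro i j k l h1 h2 h3 h4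
    rcases eq_or_ne i k with rfl | hik
    · rcases eq_or_ne j l with rfl | hjl
      · exact H.sq _ _ (Ne.symm h1)
      · exact H.same hjl (Ne.symm h1) (Ne.symm h2)
    · rcases eq_or_ne j l with rfl | hjl
      · exact H.samel (by omega) (Ne.symm h2) (Ne.symm h1) (Ne.symm hik)
      · exact H.dj _ _ _ _ (Ne.symm h1) hjl h3 h4 hik (Ne.symm h2)
  lie := by
    intro i j k h1 h2 h3
    have k1 := congrArg ρ (c1 (rel_aut (α := α)) (x := (k, true)) (y := (j, true))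
      (z := (i, true)) (Ne.symm h2) (Ne.symm h3) (Ne.symm h1))
    have s := H.sq (j, true) (i, true) (Ne.symm h1)
    have t := H.samel (p := (k, true)) (z := (j, true)) (y := (i, true)) (by omega)
      (Ne.symm h3) (Ne.symm h2) h1
    have u := H.same (x := (j, true)) (y := (k, true)) (z := (i, true)) h2 (Ne.symm h1)
      (Ne.symm h3)
    rw [map_mul, map_mul, map_mul, H.rho_inv (x := (j, true)) (a := (i, true)) (Ne.symm h1),
      rho_eq, rho_eq, rho_eq] at k1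
    show N ρ (j, true) (i, true) * N ρ (k, true) (j, true) -
      N ρ (k, true) (j, true) * N ρ (j, true) (i, true) = N ρ (k, true) (i, true)
    set b := N ρ (j, true) (i, true)
    set c := N ρ (k, true) (j, true)
    set d := N ρ (k, true) (i, true)
    have e1 : (1 + b) * (1 + c) * (1 - b) = 1 + c + b * c - c * b - b * b - b * c * b := by
      noncomm_ring
    have e2 : (1 + c) * (1 + d) = 1 + c + d := by
      have : (1 + c) * (1 + d) = 1 + c + d + c * d := by noncomm_ring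
      rw [this, t, add_zero]
    rw [e1, e2, s, sub_zero] at k1
    have e3 : d = b * c - c * b - b * c * b := by
      calc d = (1 + c + d) - (1 + c) := by abel
        _ = (1 + c + b * c - c * b - b * c * b) - (1 + c) := by rw [← k1]
        _ = _ := by abel
    have e4 : b * c * b = 0 := by
      have := u
      rw [e3, mul_sub, mul_sub, ← mul_assoc, ← mul_assoc, ← mul_assoc, ← mul_assoc, s, zero_mul,
        zero_mul, sub_zero, zero_sub, neg_eq_zero] at this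
      exact this
    rw [e3, e4, sub_zero]

end QRel

end Pool.Agent.W7h60.QQ
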