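import Mathlib
import Pool.Agent.W7h60.QQ.Quad2
import Pool.Agent.W7h60.QQ.Fox

set_option autoImplicit false
set_option linter.unusedSectionVars false

/-! A quadratic representation of the subgroup generated by the transvections is determined by
the Fox Jacobian modulo the square of the augmentation ideal. -/

namespace Pool.Agent.W7h60.QQ

open Pool.Agent.Helper156.OF Pool.Agent.TH271.CU

universe u v

variable {α : Type} [DecidableEq α] [Fintype α] {R : Type v} [CommRing R]

/-- the crossed homomorphism -/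
noncomputable def kap (ψ : MulAut (FreeGroup α)) : α → R := (J (R := R) ψ).det.snd

theorem kap_one : kap (R := R) (1 : MulAut (FreeGroup α)) = 0 := by
  unfold kap
  rw [J_one, Matrix.det_one]
  rfl

theorem fst_mul' (ψ φ : MulAut (FreeGroup α)) (h1 : (J (R := R) ψ).det.fst = 1)
    (h2 : (J (R := R) φ).det.fst = 1) : (J (R := R) (ψ * φ)).det.fst = 1 := by
  rw [det_mul', TrivSqZeroExt.fst_mul, sgm_fst, h1, h2, mul_one]

theorem kap_mul (ψ φ : MulAut (FreeGroup α)) (h1 : (J (R := R) ψ).det.fst = 1)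
    (h2 : (J (R := R) φ).det.fst = 1) :
    kap (R := R) (ψ * φ) = kap ψ + Matrix.mulVec (G (R := R) ψ : (Matrix α α R)ˣ) (kap φ) := by
  unfold kap
  rw [det_mul', TrivSqZeroExt.snd_mul, sgm_fst, h1, h2, one_smul, MulOpposite.op_one, one_smul]
  congr 1
  rw [G_val, Matrix.mulVec_transpose]
  unfold sgm
  rw [TrivSqZeroExt.snd_map]
  rfl

theorem aut_R {i j : α} (hij : i ≠ j) (k : α) :
    eAut (i, true) (j, true) (FreeGroup.of k) =
      if k = i then FreeGroup.of i * FreeGroup.of j else FreeGroup.of k := by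
  rw [← gl_true k, eAut_gl]
  unfold eFun
  rw [if_neg hij]
  by_cases hk : k = i
  · subst hk
    rw [if_pos rfl, if_pos rfl]
    rfl
  · rw [if_neg (by simp [hk]), if_neg (by simp [nv]), if_neg hk]

theorem aut_L {i j : α} (hij : i ≠ j) (k : α) :
    eAut (i, false) (j, true) (FreeGroup.of k) =
      if k = i then (FreeGroup.of j)⁻¹ * FreeGroup.of i else FreeGroup.of k := by
  rw [← gl_true k, eAut_gl]
  unfold eFun
  rw [if_neg hij]
  by_cases hk : k = i
  · subst hk
    rw [if_neg (by simp), if_pos (by simp [nv]), if_pos rfl]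
    have : gl ((k, false) : Lt α) = (gl (k, true))⁻¹ := gl_nv (k, true)
    rw [this, inv_inv]
    rfl
  · rw [if_neg (by simp [hk]), if_neg (by simp [nv, hk]), if_neg hk]

theorem J_R {i j : α} (hij : i ≠ j) : J (R := R) (eAut (i, true) (j, true)) =
    Matrix.transvection i j ((eu (Pi.single i 1 : α → R) : (SS α R)ˣ) : SS α R) := by
  apply Matrix.ext
  intro k l
  show (mg (R := R) (eAut (i, true) (j, true) (FreeGroup.of k))).v l = _
  rw [aut_R hij, Matrix.transvection, Matrix.add_apply]
  by_cases hk : k = i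
  · subst hk
    rw [if_pos rfl, map_mul, Aff.mul_v, mg_of, mg_of, Pi.add_apply, Pi.smul_apply]
    simp only [Matrix.one_apply, Pi.single_apply, Matrix.single_apply, true_and]
    simp only [eq_comm, smul_eq_mul, mul_ite, mul_one, mul_zero]
  · rw [if_neg hk, mg_of]
    simp only [Matrix.one_apply, Pi.single_apply, Matrix.single_apply, Ne.symm hk, false_and,
      if_false, add_zero, eq_comm]

theorem J_L {i j : α} (hij : i ≠ j) : J (R := R) (eAut (i, false) (j, true)) =
    Matrix.diagonal (Function.update 1 i ((eu (-Pi.single j 1 : α → R) : (SS α R)ˣ) : SS α R)) *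
      Matrix.transvection i j (-1) := by
  apply Matrix.ext
  intro k l
  show (mg (R := R) (eAut (i, false) (j, true) (FreeGroup.of k))).v l = _
  rw [aut_L hij, Matrix.transvection, Matrix.mul_add, Matrix.mul_one, Matrix.add_apply,
    Matrix.diagonal_mul]
  by_cases hk : k = i
  · subst hk
    rw [if_pos rfl, map_mul, map_inv, Aff.mul_v, Aff.inv_v, Aff.inv_a, mg_of, mg_of, Pi.add_apply,
      Pi.neg_apply, Pi.smul_apply, Pi.smul_apply, eu_neg]
    simp only [Matrix.diagonal_apply, Pi.single_apply, Matrix.single_apply, true_and,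
      Function.update_self]
    simp only [eq_comm, smul_eq_mul, mul_ite, mul_one, mul_zero, mul_neg]
    split_ifs <;> simp
  · rw [if_neg hk, mg_of]
    simp only [Matrix.diagonal_apply, Pi.single_apply, Matrix.single_apply, Ne.symm hk, false_and,
      if_false, add_zero, mul_zero, Function.update_of_ne hk, Pi.one_apply, eq_comm]

theorem det_R {i j : α} (hij : i ≠ j) : (J (R := R) (eAut (i, true) (j, true))).det = 1 := by
  rw [J_R hij, Matrix.det_transvection_of_ne _ _ hij]

theorem det_L {i j : α} (hij : i ≠ j) : (J (R := R) (eAut (i, false) (j, true))).det =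
    1 + TrivSqZeroExt.inr (-Pi.single j 1) := by
  rw [J_L hij, Matrix.det_mul, Matrix.det_transvection_of_ne _ _ hij, Matrix.det_diagonal, mul_one,
    Finset.prod_update_of_mem (Finset.mem_univ i)]
  simp only [Pi.one_apply, Finset.prod_const_one, mul_one]
  rfl

theorem g0_R {i j : α} (hij : i ≠ j) : g0 (R := R) (eAut (i, true) (j, true)) =
    Matrix.transvection i j 1 := by
  apply Matrix.ext
  intro k l
  rw [← J_fst, J_R hij, Matrix.transvection, Matrix.transvection, Matrix.add_apply,
    Matrix.add_apply, TrivSqZeroExt.fst_add, Matrix.one_apply, Matrix.one_apply,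
    Matrix.single_apply, Matrix.single_apply]
  congr 1
  · split_ifs <;> simp
  · split_ifs
    · rw [eu_val]; simp
    · simp

theorem g0_L {i j : α} (hij : i ≠ j) : g0 (R := R) (eAut (i, false) (j, true)) =
    Matrix.transvection i j (-1) := by
  apply Matrix.ext
  intro k l
  rw [← J_fst, J_L hij, Matrix.diagonal_mul]
  rw [Matrix.transvection, Matrix.transvection, Matrix.add_apply,
    Matrix.add_apply, TrivSqZeroExt.fst_mul, TrivSqZeroExt.fst_add, Matrix.one_apply,
    Matrix.one_apply, Matrix.single_apply, Matrix.single_apply]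
  have : (Function.update (1 : α → SS α R) i
      ((eu (-Pi.single j 1 : α → R) : (SS α R)ˣ) : SS α R) k).fst = 1 := by
    by_cases hk : k = i
    · subst hk
      rw [Function.update_self, eu_val]
      simp
    · rw [Function.update_of_ne hk]
      simp
  rw [this, one_mul]
  congr 1
  · split_ifs <;> simp
  · split_ifs <;> simp

theorem G_R {i j : α} (hij : i ≠ j) : G (R := R) (eAut (i, true) (j, true)) =
    tv j i (Ne.symm hij) 1 := by
  apply Units.ext
  rw [G_val, g0_R hij]
  show (Matrix.transvection i j (1 : R)).transpose = Matrix.transvection j i 1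
  rw [Matrix.transvection, Matrix.transvection, Matrix.transpose_add, Matrix.transpose_one,
    Matrix.transpose_single]

theorem G_L {i j : α} (hij : i ≠ j) : G (R := R) (eAut (i, false) (j, true)) =
    tv j i (Ne.symm hij) (-1) := by
  apply Units.ext
  rw [G_val, g0_L hij]
  show (Matrix.transvection i j (-1 : R)).transpose = Matrix.transvection j i (-1)
  rw [Matrix.transvection, Matrix.transvection, Matrix.transpose_add, Matrix.transpose_one,
    Matrix.transpose_single]

variable {A : Type u} [Ring A] [Algebra R A]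

/-- the linear extension of the `c_j` -/
noncomputable def cv (ρ : MulAut (FreeGroup α) →* A) (v : α → R) : A :=
  -∑ j, v j • cc ρ (j, true)

theorem cv_add (ρ : MulAut (FreeGroup α) →* A) (v w : α → R) :
    cv ρ (v + w) = cv ρ v + cv ρ w := by
  unfold cv
  simp only [Pi.add_apply, add_smul, Finset.sum_add_distrib, neg_add]

theorem cv_smul (ρ : MulAut (FreeGroup α) →* A) (c : R) (v : α → R) :
    cv ρ (c • v) = c • cv ρ v := by
  unfold cv
  simp only [Pi.smul_apply, smul_eq_mul, mul_smul, ← Finset.smul_sum, smul_neg]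

theorem cv_zero (ρ : MulAut (FreeGroup α) →* A) : cv ρ (0 : α → R) = 0 := by
  unfold cv
  simp

theorem cv_single (ρ : MulAut (FreeGroup α) →* A) (j : α) (c : R) :
    cv ρ (Pi.single j c) = -(c • cc ρ (j, true)) := by
  unfold cv
  rw [Finset.sum_eq_single j]
  · rw [Pi.single_eq_same]
  · intro b _ hb
    rw [Pi.single_eq_of_ne hb, zero_smul]
  · intro h; exact absurd (Finset.mem_univ _) h

theorem cv_neg (ρ : MulAut (FreeGroup α) →* A) (v : α → R) :
    cv ρ (-v) = -cv ρ v := by
  unfold cv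
  simp

variable {ρ : MulAut (FreeGroup α) →* A} (H : QRel ρ)

include H

theorem cv_cv (h5 : 5 ≤ Fintype.card α) (v w : α → R) : cv ρ v * cv ρ w = 0 := by
  unfold cv
  rw [neg_mul_neg, Finset.sum_mul]
  refine Finset.sum_eq_zero fun i _ => ?_
  rw [Finset.mul_sum]
  refine Finset.sum_eq_zero fun j _ => ?_
  rw [smul_mul_smul_comm]
  rcases eq_or_ne i j with rfl | hij
  · rw [H.cc_sq (by omega), smul_zero]
  · rw [H.cc_cc h5 hij, smul_zero]

theorem N_cv (h5 : 5 ≤ Fintype.card α) {i j : α} (hij : i ≠ j) (v : α → R) :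
    N ρ (i, true) (j, true) * cv ρ v =
      cv ρ v * N ρ (i, true) (j, true) + cv ρ (Pi.single j (v i) : α → R) := by
  have e1 : N ρ (i, true) (j, true) * cv ρ v =
      -(v i • (N ρ (i, true) (j, true) * cc ρ (i, true))) := by
    unfold cv
    rw [mul_neg, Finset.mul_sum, Finset.sum_eq_single i]
    · rw [mul_smul_comm]
    · intro k _ hk
      rw [mul_smul_comm]
      rcases eq_or_ne j k with rfl | hjk
      · rw [H.N_cc (by omega) (q := (i, true)) (z := (j, true)) hij, smul_zero]
      · rw [H.dj_cc h5 (x := (i, true)) (a := (j, true)) (z := (k, true)) hij (Ne.symm hk) hjk,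
          smul_zero]
    · intro h; exact absurd (Finset.mem_univ _) h
  have e2 : cv ρ v * N ρ (i, true) (j, true) =
      -(v i • (cc ρ (i, true) * N ρ (i, true) (j, true))) := by
    unfold cv
    rw [neg_mul, Finset.sum_mul, Finset.sum_eq_single i]
    · rw [smul_mul_assoc]
    · intro k _ hk
      rw [smul_mul_assoc]
      rcases eq_or_ne j k with rfl | hjk
      · rw [H.cc_N (by omega) (q := (i, true)) (z := (j, true)) hij, smul_zero]
      · rw [H.cc_dj h5 (x := (i, true)) (a := (j, true)) (z := (k, true)) hij (Ne.symm hk) hjk,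
          smul_zero]
    · intro h; exact absurd (Finset.mem_univ _) h
  rw [e1, e2, cv_single, ← H.lie_cc h5 (z := (i, true)) (w := (j, true)) hij, smul_sub]
  abel

theorem cv_N (h5 : 5 ≤ Fintype.card α) {i j : α} (hij : i ≠ j) (c : R) :
    cv ρ (Pi.single j c : α → R) * N ρ (i, true) (j, true) = 0 := by
  rw [cv_single, neg_mul, smul_mul_assoc, H.cc_N (by omega) (q := (i, true)) (z := (j, true)) hij,
    smul_zero, neg_zero]

theorem tv_cv (h5 : 5 ≤ Fintype.card α) {i j : α} (hij : i ≠ j) (t : R) (v : α → R) :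
    Th (fun i j : α => N ρ (j, true) (i, true)) (tv j i (Ne.symm hij) t) * cv ρ v =
      cv ρ (Matrix.mulVec ((tv j i (Ne.symm hij) t : (Matrix α α R)ˣ) : Matrix α α R) v) *
        Th (fun i j : α => N ρ (j, true) (i, true)) (tv j i (Ne.symm hij) t) := by
  have e0 : Matrix.mulVec ((tv j i (Ne.symm hij) t : (Matrix α α R)ˣ) : Matrix α α R) v =
      v + t • (Pi.single j (v i) : α → R) := by
    show Matrix.mulVec (1 + Matrix.single j i t) v = _
    rw [Matrix.add_mulVec, Matrix.one_mulVec, Matrix.single_mulVec]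
    congr 1
    funext k
    rcases eq_or_ne k j with rfl | hk
    · simp
    · simp [Pi.single_eq_of_ne hk, Function.update_of_ne hk]
  rw [Th_tv (H.trel h5) h5, e0, cv_add, cv_smul]
  show (1 + t • N ρ (i, true) (j, true)) * cv ρ v = (cv ρ v + t • cv ρ (Pi.single j (v i))) *
    (1 + t • N ρ (i, true) (j, true))
  have k1 := N_cv H h5 hij v
  have k2 := cv_N H h5 hij (v i)
  rw [add_mul, mul_add, one_mul, mul_one, smul_mul_assoc, k1, mul_smul_comm, add_mul,
    smul_mul_assoc, k2, smul_zero, add_zero, smul_add]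
  abel

/-- the representation is given by the Jacobian -/
def Good (R : Type v) [CommRing R] [Algebra R A] (ρ : MulAut (FreeGroup α) →* A)
    (ψ : MulAut (FreeGroup α)) : Prop :=
  (J (R := R) ψ).det.fst = 1 ∧
  ρ ψ = (1 + cv ρ (kap (R := R) ψ)) * Th (fun i j : α => N ρ (j, true) (i, true)) (G (R := R) ψ) ∧
  ∀ v : α → R, Th (fun i j : α => N ρ (j, true) (i, true)) (G (R := R) ψ) * cv ρ v =
    cv ρ (Matrix.mulVec ((G (R := R) ψ : (Matrix α α R)ˣ) : Matrix α α R) v) *
      Th (fun i j : α => N ρ (j, true) (i, true)) (G (R := R) ψ)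

theorem good_one : Good R ρ (1 : MulAut (FreeGroup α)) := by
  refine ⟨?_, ?_, ?_⟩
  · rw [J_one, Matrix.det_one]
    rfl
  · rw [map_one, map_one, kap_one, cv_zero, add_zero, Th_one, one_mul]
  · intro v
    rw [map_one, Th_one, one_mul, mul_one, Units.val_one, Matrix.one_mulVec]

theorem good_mul (h5 : 5 ≤ Fintype.card α) {ψ φ : MulAut (FreeGroup α)}
    (h1 : Good R ρ ψ) (h2 : Good R ρ φ) : Good R ρ (ψ * φ) := by
  obtain ⟨a1, a2, a3⟩ := h1
  obtain ⟨b1, b2, b3⟩ := h2
  have T := Th_mul (H.trel h5) h5 (G (R := R) ψ) (G (R := R) φ)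
  refine ⟨fst_mul' _ _ a1 b1, ?_, ?_⟩
  · rw [map_mul, map_mul, a2, b2, T, kap_mul _ _ a1 b1, cv_add]
    have k1 := a3 (kap (R := R) φ)
    have k2 := cv_cv H h5 (kap (R := R) ψ)
      (Matrix.mulVec ((G (R := R) ψ : (Matrix α α R)ˣ) : Matrix α α R) (kap (R := R) φ))
    set X := Th (fun i j : α => N ρ (j, true) (i, true)) (G (R := R) ψ)
    set Y := Th (fun i j : α => N ρ (j, true) (i, true)) (G (R := R) φ)
    set c := cv ρ (kap (R := R) ψ)
    set d := cv ρ (kap (R := R) φ)
    set d' := cv ρ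
      (Matrix.mulVec ((G (R := R) ψ : (Matrix α α R)ˣ) : Matrix α α R) (kap (R := R) φ))
    calc (1 + c) * X * ((1 + d) * Y) = (1 + c) * (X + X * d) * Y := by noncomm_ring
      _ = (1 + c) * (X + d' * X) * Y := by rw [k1]
      _ = (1 + (c + d') + c * d') * (X * Y) := by noncomm_ring
      _ = _ := by rw [k2, add_zero]
  · intro v
    rw [map_mul, T, mul_assoc, b3, ← mul_assoc, a3, mul_assoc, Matrix.mulVec_mulVec,
      Units.val_mul]

theorem good_inv (h5 : 5 ≤ Fintype.card α) {ψ : MulAut (FreeGroup α)}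
    (h1 : Good R ρ ψ) : Good R ρ ψ⁻¹ := by
  obtain ⟨a1, a2, a3⟩ := h1
  have f1 : (J (R := R) ψ⁻¹).det.fst = 1 := by
    have := det_mul' (R := R) ψ ψ⁻¹
    rw [mul_inv_cancel, J_one, Matrix.det_one] at this
    have := congrArg TrivSqZeroExt.fst this
    rw [TrivSqZeroExt.fst_mul, sgm_fst, a1, mul_one] at this
    rw [← this]
    rfl
  have T1 : Th (fun i j : α => N ρ (j, true) (i, true)) (G (R := R) ψ⁻¹) *
      Th (fun i j : α => N ρ (j, true) (i, true)) (G (R := R) ψ) = 1 := by
    rw [← Th_mul (H.trel h5) h5, ← map_mul, inv_mul_cancel, map_one, Th_one]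
  have T2 : Th (fun i j : α => N ρ (j, true) (i, true)) (G (R := R) ψ) *
      Th (fun i j : α => N ρ (j, true) (i, true)) (G (R := R) ψ⁻¹) = 1 := by
    rw [← Th_mul (H.trel h5) h5, ← map_mul, mul_inv_cancel, map_one, Th_one]
  have k0 : Matrix.mulVec ((G (R := R) ψ : (Matrix α α R)ˣ) : Matrix α α R) (kap (R := R) ψ⁻¹) =
      - kap (R := R) ψ := by
    have := kap_mul (R := R) ψ ψ⁻¹ a1 f1
    rw [mul_inv_cancel, kap_one] at this
    exact (neg_eq_of_add_eq_zero_right this.symm).symm
  have m1 : ∀ v : α → R, Matrix.mulVec ((G (R := R) ψ : (Matrix α α R)ˣ) : Matrix α α R)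
      (Matrix.mulVec ((G (R := R) ψ⁻¹ : (Matrix α α R)ˣ) : Matrix α α R) v) = v := by
    intro v
    rw [Matrix.mulVec_mulVec, ← Units.val_mul, ← map_mul, mul_inv_cancel, map_one, Units.val_one,
      Matrix.one_mulVec]
  have c3 : ∀ v : α → R, Th (fun i j : α => N ρ (j, true) (i, true)) (G (R := R) ψ⁻¹) * cv ρ v =
    cv ρ (Matrix.mulVec ((G (R := R) ψ⁻¹ : (Matrix α α R)ˣ) : Matrix α α R) v) *
      Th (fun i j : α => N ρ (j, true) (i, true)) (G (R := R) ψ⁻¹) := by
    intro v
    have k := a3 (Matrix.mulVec ((G (R := R) ψ⁻¹ : (Matrix α α R)ˣ) : Matrix α α R) v)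
    rw [m1] at k
    set X := Th (fun i j : α => N ρ (j, true) (i, true)) (G (R := R) ψ)
    set Y := Th (fun i j : α => N ρ (j, true) (i, true)) (G (R := R) ψ⁻¹)
    calc Y * cv ρ v = Y * (cv ρ v * X) * Y := by rw [mul_assoc, mul_assoc, T2, mul_one]
      _ = (Y * X) * cv ρ _ * Y := by rw [← k, ← mul_assoc]
      _ = _ := by rw [T1, one_mul]
  refine ⟨f1, ?_, c3⟩
  have r1 : ρ ψ⁻¹ * ρ ψ = 1 := by rw [← map_mul, inv_mul_cancel, map_one]
  have k := c3 (kap (R := R) ψ)
  have k1 : Matrix.mulVec ((G (R := R) ψ⁻¹ : (Matrix α α R)ˣ) : Matrix α α R) (kap (R := R) ψ) =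
      -kap (R := R) ψ⁻¹ := by
    have : kap (R := R) ψ = -(Matrix.mulVec ((G (R := R) ψ : (Matrix α α R)ˣ) : Matrix α α R)
      (kap (R := R) ψ⁻¹)) := by rw [k0, neg_neg]
    rw [this, Matrix.mulVec_neg, Matrix.mulVec_mulVec, ← Units.val_mul, ← map_mul, inv_mul_cancel,
      map_one, Units.val_one, Matrix.one_mulVec]
  rw [k1, cv_neg] at k
  have sq := cv_cv H h5 (kap (R := R) ψ⁻¹) (kap (R := R) ψ⁻¹)
  set X := Th (fun i j : α => N ρ (j, true) (i, true)) (G (R := R) ψ)
  set Y := Th (fun i j : α => N ρ (j, true) (i, true)) (G (R := R) ψ⁻¹)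
  set c := cv ρ (kap (R := R) ψ)
  set c' := cv ρ (kap (R := R) ψ⁻¹)
  -- `(1 + c') Y (1 + c) X = 1`
  have r2 : ((1 + c') * Y) * ρ ψ = 1 := by
    rw [a2]
    calc (1 + c') * Y * ((1 + c) * X) = (1 + c') * (Y + Y * c) * X := by noncomm_ring
      _ = (1 - c' * c') * (Y * X) := by rw [k]; noncomm_ring
      _ = 1 := by rw [sq, sub_zero, T1, one_mul]
  have r3 : ρ ψ * ρ ψ⁻¹ = 1 := by rw [← map_mul, mul_inv_cancel, map_one]
  calc ρ ψ⁻¹ = (((1 + c') * Y) * ρ ψ) * ρ ψ⁻¹ := by rw [r2, one_mul]
    _ = _ := by rw [mul_assoc, r3, mul_one]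

theorem good_R (h5 : 5 ≤ Fintype.card α) {i j : α} (hij : i ≠ j) :
    Good R ρ (eAut (i, true) (j, true)) := by
  refine ⟨?_, ?_, ?_⟩
  · rw [det_R hij]; rfl
  · have : kap (R := R) (eAut (i, true) (j, true)) = 0 := by
      unfold kap
      rw [det_R hij]
      rfl
    rw [this, cv_zero, add_zero, one_mul, G_R hij, Th_tv (H.trel h5) h5, one_smul, rho_eq]
  · intro v
    rw [G_R hij, tv_cv H h5 hij]

theorem good_L (h5 : 5 ≤ Fintype.card α) {i j : α} (hij : i ≠ j) :
    Good R ρ (eAut (i, false) (j, true)) := by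
  refine ⟨?_, ?_, ?_⟩
  · rw [det_L hij]
    simp
  · have : kap (R := R) (eAut (i, false) (j, true)) = -Pi.single j 1 := by
      unfold kap
      rw [det_L hij]
      simp
    have k1 := H.N_nv (by omega) (y := (i, true)) (z := (j, true)) hij
    have k2 := H.cc_N (by omega) (q := (i, true)) (z := (j, true)) hij
    rw [this, cv_neg, cv_single, neg_neg, one_smul, G_L hij, Th_tv (H.trel h5) h5, rho_eq]
    show 1 + N ρ (nv (i, true)) (j, true) = (1 + cc ρ (j, true)) *
      (1 + (-1 : R) • N ρ (i, true) (j, true))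
    rw [k1, neg_smul, one_smul, mul_add, add_mul, add_mul, mul_neg, mul_neg, k2]
    simp only [one_mul, mul_one]
    abel
  · intro v
    rw [G_L hij, tv_cv H h5 hij]

theorem good_all (h5 : 5 ≤ Fintype.card α) {ψ : MulAut (FreeGroup α)}
    (h : ψ ∈ Subgroup.closure {φ : MulAut (FreeGroup α) | ∃ x a : Lt α, φ = eAut x a}) :
    Good R ρ ψ := by
  induction h using Subgroup.closure_induction with
  | mem φ hφ =>
    obtain ⟨x, a, rfl⟩ := hφ
    by_cases hxa : x.1 = a.1
    · rw [eAut_junk x a hxa]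
      exact good_one H
    · obtain ⟨i, b⟩ := x
      obtain ⟨j, c⟩ := a
      have key : ∀ b : Bool, Good R ρ (eAut (i, b) (j, true)) := by
        intro b
        cases b
        · exact good_L H h5 hxa
        · exact good_R H h5 hxa
      cases c
      · have : eAut (i, b) (j, false) = (eAut (i, b) (j, true))⁻¹ :=
          rel_aut.e1 (i, b) (j, true)
        rw [this]
        exact good_inv H h5 (key b)
      · exact key b
  | one => exact good_one H
  | mul x y _ _ hx hy => exact good_mul H h5 hx hy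
  | inv x _ hx => exact good_inv H h5 hx

/-- elements with trivial Jacobian act trivially -/
theorem triv (h5 : 5 ≤ Fintype.card α) {ψ : MulAut (FreeGroup α)}
    (h : ψ ∈ Subgroup.closure {φ : MulAut (FreeGroup α) | ∃ x a : Lt α, φ = eAut x a})
    (h1 : ∀ i, mg (R := R) (ψ (FreeGroup.of i)) = mg (FreeGroup.of i)) : ρ ψ = 1 := by
  obtain ⟨-, a2, -⟩ := good_all (R := R) H h5 h
  have e1 : J (R := R) ψ = J 1 := by
    apply Matrix.ext
    intro i j
    show (mg (R := R) (ψ (FreeGroup.of i))).v j = (mg (R := R) (FreeGroup.of i)).v j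
    rw [h1]
  have e2 : g0 (R := R) ψ = g0 1 := by
    apply Matrix.ext
    intro i j
    rw [← J_fst, e1, J_fst]
  have e3 : G (R := R) ψ = 1 := by
    apply Units.ext
    rw [G_val, e2, g0_one, Matrix.transpose_one, Units.val_one]
  have e4 : kap (R := R) ψ = 0 := by
    unfold kap
    rw [e1, J_one, Matrix.det_one]
    rfl
  rw [a2, e3, e4, Th_one, cv_zero, add_zero, one_mul]

end Pool.Agent.W7h60.QQ
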