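import Mathlib
import Pool.Agent.R352.CH.A
import Pool.Agent.W7h60.QQ.Good

set_option autoImplicit false

/-! Representations of `Aut(F_n)` of dimension less than `binom (n / 2 - 5) 2` are quadratic. -/

namespace Pool.Agent.W7h60.QQ

open Pool.Agent.H798R3.MG Pool.Agent.H29R2.MG Pool.Agent.TH35.MG Pool.Agent.TH35.CH
  Pool.Agent.Helper950.BG Pool.Agent.R352.MG Pool.Agent.R352.CH Module
  Pool.Agent.Helper156.OF

universe u

/-- one more prescribed value of a signed permutation -/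
theorem sp_step {α : Type} [DecidableEq α] (σ : SP α) (x y : Lt α) :
    ∃ σ' : SP α, (σ' : Equiv.Perm (Lt α)) x = y ∧
      ∀ c : Lt α, c.1 ≠ x.1 → ((σ : Equiv.Perm (Lt α)) c).1 ≠ y.1 →
        (σ' : Equiv.Perm (Lt α)) c = (σ : Equiv.Perm (Lt α)) c := by
  refine ⟨swp ((σ : Equiv.Perm (Lt α)) x) y * σ, ?_, ?_⟩
  · rw [Subgroup.coe_mul, Equiv.Perm.mul_apply, swp_left]
  · intro c h1 h2
    rw [Subgroup.coe_mul, Equiv.Perm.mul_apply]
    apply swp_other _ h2
    intro h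
    apply h1
    rcases fst_eq_iff.1 h with e | e
    · rw [(σ : Equiv.Perm (Lt α)).injective e]
    · rw [← SP.map_nv] at e
      rw [(σ : Equiv.Perm (Lt α)).injective e, nv_fst]

theorem sp_four {α : Type} [DecidableEq α] {x1 x2 x3 x4 y1 y2 y3 y4 : Lt α}
    (a12 : x1.1 ≠ x2.1) (a13 : x1.1 ≠ x3.1) (a14 : x1.1 ≠ x4.1) (a23 : x2.1 ≠ x3.1)
    (a24 : x2.1 ≠ x4.1) (a34 : x3.1 ≠ x4.1)
    (b12 : y1.1 ≠ y2.1) (b13 : y1.1 ≠ y3.1) (b14 : y1.1 ≠ y4.1) (b23 : y2.1 ≠ y3.1)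
    (b24 : y2.1 ≠ y4.1) (b34 : y3.1 ≠ y4.1) :
    ∃ σ : SP α, (σ : Equiv.Perm (Lt α)) x1 = y1 ∧ (σ : Equiv.Perm (Lt α)) x2 = y2 ∧
      (σ : Equiv.Perm (Lt α)) x3 = y3 ∧ (σ : Equiv.Perm (Lt α)) x4 = y4 := by
  obtain ⟨s1, c1, -⟩ := sp_step 1 x1 y1
  obtain ⟨s2, c2, d2⟩ := sp_step s1 x2 y2
  have c21 : (s2 : Equiv.Perm (Lt α)) x1 = y1 := by
    rw [d2 x1 a12 (by rw [c1]; exact b12), c1]
  obtain ⟨s3, c3, d3⟩ := sp_step s2 x3 y3
  have c31 : (s3 : Equiv.Perm (Lt α)) x1 = y1 := by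
    rw [d3 x1 a13 (by rw [c21]; exact b13), c21]
  have c32 : (s3 : Equiv.Perm (Lt α)) x2 = y2 := by
    rw [d3 x2 a23 (by rw [c2]; exact b23), c2]
  obtain ⟨s4, c4, d4⟩ := sp_step s3 x4 y4
  refine ⟨s4, ?_, ?_, ?_, c4⟩
  · rw [d4 x1 a14 (by rw [c31]; exact b14), c31]
  · rw [d4 x2 a24 (by rw [c32]; exact b24), c32]
  · rw [d4 x3 a34 (by rw [c3]; exact b34), c3]

/-- two disjoint transvections for which the product of the nilpotent parts vanishes -/
theorem std {n d : ℕ} (hkn : 2 + 5 ≤ n / 2) (hd1 : d < (n / 2 - 5).choose 2)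
    (hd2 : d < 2 ^ (n / 2 - 4 - 2)) (K : Type u) [Field K]
    (f : MulAut (FreeGroup (Fin n)) →* Matrix.GeneralLinearGroup (Fin d) K) :
    ∃ x a y b : Lt (Fin n), x.1 ≠ a.1 ∧ x.1 ≠ y.1 ∧ x.1 ≠ b.1 ∧ a.1 ≠ y.1 ∧ a.1 ≠ b.1 ∧
      y.1 ≠ b.1 ∧ ((f (eAut x a) : Matrix (Fin d) (Fin d) K) - 1) *
        ((f (eAut y b) : Matrix (Fin d) (Fin d) K) - 1) = 0 := by
  have hg0 : 0 < n / 2 := by omega
  have hg1 : 1 < n / 2 := by omega
  let γ := (Fin (n / 2) ⊕ Fin (n / 2)) ⊕ Fin (n - (n / 2 + n / 2))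
  let e : γ ≃ Fin n :=
    Fintype.equivFinOfCardEq (by
      simp only [γ, Fintype.card_sum, Fintype.card_fin]
      omega)
  let bz : (i : ℕ) → i < n / 2 → γ := fun i hi => Sum.inl (Sum.inr ⟨i, hi⟩)
  let az : (i : ℕ) → i < n / 2 → γ := fun i hi => Sum.inl (Sum.inl ⟨i, hi⟩)
  have hba : ∀ i hi j hj, e (bz i hi) ≠ e (az j hj) := by
    intro i hi j hj h
    have h7 : (Sum.inr ⟨i, hi⟩ : Fin (n / 2) ⊕ Fin (n / 2)) = Sum.inl ⟨j, hj⟩ :=
      Sum.inl_injective (e.injective h)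
    exact Sum.inr_ne_inl h7
  have hbb : e (bz 0 hg0) ≠ e (bz 1 hg1) := by
    intro h
    have h7 : (Sum.inr ⟨0, hg0⟩ : Fin (n / 2) ⊕ Fin (n / 2)) = Sum.inr ⟨1, hg1⟩ :=
      Sum.inl_injective (e.injective h)
    have h8 := Sum.inr_injective h7
    exact absurd (congrArg Fin.val h8) (by norm_num)
  have haa : e (az 0 hg0) ≠ e (az 1 hg1) := by
    intro h
    have h7 : (Sum.inl ⟨0, hg0⟩ : Fin (n / 2) ⊕ Fin (n / 2)) = Sum.inl ⟨1, hg1⟩ :=
      Sum.inl_injective (e.injective h)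
    have h8 := Sum.inl_injective h7
    exact absurd (congrArg Fin.val h8) (by norm_num)
  let E : FreeGroup γ ≃* FreeGroup (Fin n) := FreeGroup.freeGroupCongr e
  have hE : ∀ z, E (FreeGroup.of z) = FreeGroup.of (e z) := fun z => by
    show FreeGroup.map e (FreeGroup.of z) = _
    rw [FreeGroup.map.of]
  have c : Ctx (n / 2) (n / 2 - 3) (n / 2 - 3 + 2) := ⟨by omega, le_refl _, by omega⟩
  have hA : ∀ i (hi : i < n / 2) (_ : i < n / 2 - 3),
      MulAut.congr E (fh (n / 2) (Fin (n - (n / 2 + n / 2))) (sA (n / 2) i)) =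
        eAut (e (bz i hi), true) (e (az i hi), true) := by
    intro i hi hi3
    apply aut_ext
    intro k
    obtain ⟨z, rfl⟩ := e.surjective k
    have h3 : MulAut.congr E (fh (n / 2) (Fin (n - (n / 2 + n / 2))) (sA (n / 2) i))
        (FreeGroup.of (e z)) =
        E (fh (n / 2) (Fin (n - (n / 2 + n / 2))) (sA (n / 2) i) (FreeGroup.of z)) := by
      show E (fh (n / 2) (Fin (n - (n / 2 + n / 2))) (sA (n / 2) i)
        (E.symm (FreeGroup.of (e z)))) = _
      rw [← hE z, MulEquiv.symm_apply_apply]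
    rw [h3, aut_R (hba i hi i hi)]
    by_cases hz : z = bz i hi
    · rw [hz, if_pos rfl]
      have h4 : FreeGroup.of (bz i hi) = gb (n / 2) (Fin (n - (n / 2 + n / 2))) i :=
        (gb_of hi).symm
      have h5 : ga (n / 2) (Fin (n - (n / 2 + n / 2))) i = FreeGroup.of (az i hi) := ga_of hi
      rw [h4, A_gb' c hi3, h5, ← h4, map_mul, hE, hE]
    · have hez : e z ≠ e (bz i hi) := fun h => hz (e.injective h)
      rw [if_neg hez]
      have h6 : fh (n / 2) (Fin (n - (n / 2 + n / 2))) (sA (n / 2) i) (FreeGroup.of z) =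
          FreeGroup.of z := by
        rcases z with (q | q) | b
        · rw [← ga_of q.2, A_ga c hi3 q.2]
        · have hq : (q : ℕ) ≠ i := by
            intro h
            apply hz
            show (Sum.inl (Sum.inr q) : γ) = Sum.inl (Sum.inr ⟨i, hi⟩)
            congr 2
            exact Fin.ext h
          rw [← gb_of q.2, A_gb c hi3 q.2 hq]
        · rw [fh_inr]
      rw [h6, hE]
  let Ψ : MulAut (FreeGroup γ) →* MulAut (FreeGroup (Fin n)) := (MulAut.congr E).toMonoidHom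
  have r := inn_rel (β := Fin (n - (n / 2 + n / 2))) c
  have hfr : finrank (AlgebraicClosure K) (Fin d → AlgebraicClosure K) = d := by simp
  have h0 := X_zero r (((glEnd d K).comp f).comp Ψ) (k := 2) (by omega) (by omega)
    (by rw [hfr, show n / 2 - 3 - 2 = n / 2 - 5 by omega]; exact hd1)
    (by rw [hfr, show n / 2 - 3 - 1 - 2 = n / 2 - 4 - 2 by omega]; exact hd2)
  have h1 := X_list (((glEnd d K).comp f).comp Ψ) r.commAA (E := Finset.range 2) (l := [0, 1])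
    (fun i hi => by have := Finset.mem_range.1 hi; omega) (by simp)
    (fun i => by rw [Finset.mem_range]; simp; omega)
  rw [h0] at h1
  simp only [List.map_cons, List.map_nil, List.prod_cons, List.prod_nil, mul_one] at h1
  refine ⟨(e (bz 0 hg0), true), (e (az 0 hg0), true), (e (bz 1 hg1), true),
    (e (az 1 hg1), true), hba _ _ _ _, hbb, hba _ _ _ _, Ne.symm (hba _ _ _ _), haa, hba _ _ _ _,
    ?_⟩
  have h2 : ∀ i (hi : i < n / 2) (_ : i < n / 2 - 3), ((glEnd d K).comp f).comp Ψ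
      (fh (n / 2) (Fin (n - (n / 2 + n / 2))) (sA (n / 2) i)) =
      phi' d K (f (eAut (e (bz i hi), true) (e (az i hi), true)) :
        Matrix (Fin d) (Fin d) K) := by
    intro i hi hi3
    rw [phi'_gl, MonoidHom.comp_apply, MonoidHom.comp_apply]
    congr 2
    exact hA i hi hi3
  apply phi'_inj d K
  rw [map_zero, map_mul, map_sub, map_sub, map_one, ← h2 0 hg0 (by omega), ← h2 1 hg1 (by omega)]
  exact h1

/-- a representation as a homomorphism to the matrix ring -/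
def rh {n d : ℕ} {K : Type u} [Field K]
    (f : MulAut (FreeGroup (Fin n)) →* Matrix.GeneralLinearGroup (Fin d) K) :
    MulAut (FreeGroup (Fin n)) →* Matrix (Fin d) (Fin d) K :=
  (Units.coeHom (Matrix (Fin d) (Fin d) K)).comp f

theorem rh_apply {n d : ℕ} {K : Type u} [Field K]
    (f : MulAut (FreeGroup (Fin n)) →* Matrix.GeneralLinearGroup (Fin d) K)
    (ψ : MulAut (FreeGroup (Fin n))) : rh f ψ = (f ψ : Matrix (Fin d) (Fin d) K) := rfl

theorem dim_facts {n d : ℕ} (hd : d < (n / 2 - 5).choose 2) :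
    2 + 5 ≤ n / 2 ∧ d < 2 ^ (n / 2 - 4 - 2) := by
  have hM : 2 ≤ n / 2 - 5 := by
    by_contra hcon
    rw [Nat.choose_eq_zero_of_lt (by omega)] at hd
    omega
  refine ⟨by omega, ?_⟩
  have := choose_two_le (M := n / 2 - 5) (by omega)
  rw [show n / 2 - 5 - 1 = n / 2 - 4 - 2 by omega] at this
  omega

theorem qrel {n d : ℕ} (hd : d < (n / 2 - 5).choose 2) (K : Type u) [Field K] (h2 : (2 : K) ≠ 0)
    (f : MulAut (FreeGroup (Fin n)) →* Matrix.GeneralLinearGroup (Fin d) K) : QRel (rh f) := by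
  obtain ⟨hn, hd2⟩ := dim_facts hd
  have R := rel_aut (α := Fin n)
  obtain ⟨x0, a0, y0, b0, m1, m2, m3, m4, m5, m6, hp⟩ := std hn hd hd2 K f
  refine ⟨?_, ?_, ?_⟩
  · intro z hz
    rw [← two_smul K z] at hz
    rcases smul_eq_zero.1 hz with h | h
    · exact absurd h h2
    · exact h
  · intro x a hxa
    have hij : (⟨0, by omega⟩ : Fin n) ≠ ⟨1, by omega⟩ := by
      intro h
      have := congrArg Fin.val h
      simp at this
    set i : Fin n := ⟨0, by omega⟩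
    set j : Fin n := ⟨1, by omega⟩
    have hτ : TrV (eAut ((i, true) : Lt (Fin n)) (j, true)) := by
      refine ⟨i, j, hij, ?_, ?_⟩
      · rw [aut_R hij, if_pos rfl]
      · intro k hk
        rw [aut_R hij, if_neg hk]
    have h0 := trv_nil (by norm_num) hn hd hd2 K f hτ
    rw [pow_two] at h0
    obtain ⟨s1, c1, -⟩ := sp_step (1 : SP (Fin n)) (i, true) x
    obtain ⟨s2, c2, d2⟩ := sp_step s1 (j, true) a
    have c3 : (s2 : Equiv.Perm (Lt (Fin n))) (i, true) = x := by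
      rw [d2 _ hij (by rw [c1]; exact hxa), c1]
    have h1 := sq_conj (ρ := rh f) (h := toAut s2) h0
    rw [R.e0, c2, c3] at h1
    exact h1
  · intro x a y b h1 h2' h3 h4 h5 h6
    obtain ⟨σ, s1, s2, s3, s4⟩ := sp_four m1 m2 m3 m4 m5 m6 h1 h2' h3 h4 h5 h6
    have k := pr_conj (ρ := rh f) (h := toAut σ) hp
    rw [R.e0, R.e0, s1, s2, s3, s4] at k
    exact k

end Pool.Agent.W7h60.QQ
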