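import Mathlib
import Pool.Agent.Helper156.OF.SPGen
import Pool.Agent.Helper156.OF.Nielsen
import Pool.Agent.W7h60.QQ.Good

set_option autoImplicit false
set_option linter.unusedSectionVars false

/-! The subgroup generated by the transvections has index at most two. -/

namespace Pool.Agent.W7h60.QQ

open Pool.Agent.Helper156.OF

universe v

variable {α : Type} [DecidableEq α] [Fintype α]

/-- the subgroup generated by the transvections -/
def Sg (α : Type) [DecidableEq α] : Subgroup (MulAut (FreeGroup α)) :=
  Subgroup.closure {φ : MulAut (FreeGroup α) | ∃ x a : Lt α, φ = eAut x a}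

theorem E_mem (x a : Lt α) : eAut x a ∈ Sg α := Subgroup.subset_closure ⟨x, a, rfl⟩

theorem Sg_conj (σ : SP α) {φ : MulAut (FreeGroup α)} (h : φ ∈ Sg α) :
    toAut σ * φ * (toAut σ)⁻¹ ∈ Sg α := by
  unfold Sg at h
  induction h using Subgroup.closure_induction with
  | mem φ hφ =>
    obtain ⟨x, a, rfl⟩ := hφ
    rw [rel_aut.e0]
    exact E_mem _ _
  | one =>
    rw [mul_one, mul_inv_cancel]
    exact Subgroup.one_mem _
  | mul x y _ _ hx hy =>
    have : toAut σ * (x * y) * (toAut σ)⁻¹ =
      (toAut σ * x * (toAut σ)⁻¹) * (toAut σ * y * (toAut σ)⁻¹) := by group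
    rw [this]
    exact Subgroup.mul_mem _ hx hy
  | inv x _ hx =>
    have : toAut σ * x⁻¹ * (toAut σ)⁻¹ = (toAut σ * x * (toAut σ)⁻¹)⁻¹ := by group
    rw [this]
    exact Subgroup.inv_mem _ hx

theorem sg_mem {a b : Lt α} (h : a.1 ≠ b.1) : toAut (sg a b) ∈ Sg α := by
  have k1 := (rel_aut (α := α)).e4 a b (sg a b) h sg_left (sg_right h) (fun c => sg_other)
  have k2 : toAut (sg a b) = eAut (nv a) b * eAut b a * (eAut a b)⁻¹ := by rw [k1]; group
  rw [k2]
  exact Subgroup.mul_mem _ (Subgroup.mul_mem _ (E_mem _ _) (E_mem _ _))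
    (Subgroup.inv_mem _ (E_mem _ _))

/-- the inversion of a letter -/
def iv (x : Lt α) : MulAut (FreeGroup α) := toAut (swp x (nv x))

theorem iv_sq (x : Lt α) : iv x * iv x = 1 := by
  unfold iv
  rw [← map_mul, swp_mul_self, map_one]

theorem iv_iv (x y : Lt α) : iv x * iv y ∈ Sg α := by
  by_cases h : x.1 = y.1
  · rcases fst_eq_iff.1 h with rfl | rfl
    · rw [iv_sq]
      exact Subgroup.one_mem _
    · have : iv (nv y) = iv y := by
        unfold iv
        rw [nv_nv, swp_comm]
      rw [this, iv_sq]
      exact Subgroup.one_mem _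
  · have e : swp x (nv x) * swp y (nv y) = sg x y * sg x y := by
      apply SP_ext
      intro c
      have h1 : ((sg x y : Equiv.Perm (Lt α)) x) = nv y := sg_left
      have h2 : ((sg x y : Equiv.Perm (Lt α)) y) = x := sg_right h
      rw [Subgroup.coe_mul, Subgroup.coe_mul, Equiv.Perm.mul_apply, Equiv.Perm.mul_apply]
      have hx : ∀ z, ((swp x (nv x) * swp y (nv y) : SP α) : Equiv.Perm (Lt α)) z =
          (swp x (nv x) : Equiv.Perm (Lt α)) ((swp y (nv y) : Equiv.Perm (Lt α)) z) := by
        intro z; rw [Subgroup.coe_mul, Equiv.Perm.mul_apply]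
      by_cases c1 : c.1 = x.1
      · have f1 : (swp y (nv y) : Equiv.Perm (Lt α)) c = c :=
          swp_other (by rw [c1]; exact h) (by rw [c1]; exact h)
        rw [f1]
        rcases fst_eq_iff.1 c1 with rfl | rfl
        · rw [swp_left, h1, SP.map_nv, h2]
        · rw [swp_right, SP.map_nv, h1, nv_nv, h2]
      · by_cases c2 : c.1 = y.1
        · rcases fst_eq_iff.1 c2 with rfl | rfl
          · rw [swp_left, h2, h1]
            apply swp_other
            · exact c1
            · exact c1
          · rw [swp_right, SP.map_nv, h2, SP.map_nv, h1, nv_nv]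
            apply swp_other
            · exact c1
            · exact c1
        · have f1 : (swp y (nv y) : Equiv.Perm (Lt α)) c = c := swp_other c2 c2
          have f2 : (swp x (nv x) : Equiv.Perm (Lt α)) c = c := swp_other c1 c1
          rw [f1, f2, sg_other c1 c2, sg_other c1 c2]
    unfold iv
    rw [← map_mul, e, map_mul]
    exact Subgroup.mul_mem _ (sg_mem h) (sg_mem h)

theorem swp_or (x b c : Lt α) : iv x * toAut (swp b c) ∈ Sg α ∨ toAut (swp b c) ∈ Sg α := by
  by_cases h : b.1 = c.1
  · rcases fst_eq_iff.1 h with rfl | rfl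
    · right
      have : swp b b = 1 := by
        apply SP_ext
        intro c
        rw [swp_apply]
        unfold swpFun
        split_ifs with h1 h2
        · rw [h1]; rfl
        · rw [h2]; rfl
        · rfl
      rw [this, map_one]
      exact Subgroup.one_mem _
    · left
      rw [swp_comm]
      exact iv_iv x c
  · left
    have e : iv c * toAut (swp b c) = toAut (sg b c) := by
      unfold iv sg
      rw [map_mul]
    have e2 : iv x * toAut (swp b c) = (iv x * iv c) * (iv c * toAut (swp b c)) := by
      rw [mul_assoc, ← mul_assoc (iv c), iv_sq, one_mul]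
    rw [e2, e]
    exact Subgroup.mul_mem _ (iv_iv x c) (sg_mem h)

/-- the subgroup `S ∪ ι S` -/
def Tg (x : Lt α) : Subgroup (MulAut (FreeGroup α)) where
  carrier := {φ | iv x * φ ∈ Sg α ∨ φ ∈ Sg α}
  one_mem' := Or.inr (Subgroup.one_mem _)
  mul_mem' := by
    intro a b ha hb
    have hn : ∀ φ ∈ Sg α, iv x * φ * iv x ∈ Sg α := by
      intro φ hφ
      have h1 := Sg_conj (swp x (nv x)) hφ
      have h2 : (toAut (swp x (nv x)))⁻¹ = iv x := inv_eq_of_mul_eq_one_left (iv_sq x)
      rw [h2] at h1
      exact h1
    have hs := iv_sq x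
    rcases ha with ha | ha <;> rcases hb with hb | hb
    · right
      have e : a * b = iv x * ((iv x * a) * iv x * (iv x * b) * iv x) * iv x := by
        calc a * b = (iv x * iv x) * a * (iv x * iv x) * b * (iv x * iv x) := by
              rw [hs]; group
          _ = _ := by group
      have e2 : a * b = (iv x * (iv x * a) * iv x) * (iv x * b) := by
        calc a * b = (iv x * iv x) * a * (iv x * iv x) * b := by rw [hs]; group
          _ = _ := by group
      rw [e2]
      exact Subgroup.mul_mem _ (hn _ ha) hb
    · left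
      have e2 : iv x * (a * b) = (iv x * a) * b := by group
      rw [e2]
      exact Subgroup.mul_mem _ ha hb
    · left
      have e2 : iv x * (a * b) = (iv x * a * iv x) * (iv x * b) := by
        calc iv x * (a * b) = iv x * a * (iv x * iv x) * b := by rw [hs]; group
          _ = _ := by group
      rw [e2]
      exact Subgroup.mul_mem _ (hn _ ha) hb
    · right
      exact Subgroup.mul_mem _ ha hb
  inv_mem' := by
    intro a ha
    have hn : ∀ φ ∈ Sg α, iv x * φ * iv x ∈ Sg α := by
      intro φ hφ
      have h1 := Sg_conj (swp x (nv x)) hφ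
      have h2 : (toAut (swp x (nv x)))⁻¹ = iv x := inv_eq_of_mul_eq_one_left (iv_sq x)
      rw [h2] at h1
      exact h1
    have hs := iv_sq x
    rcases ha with ha | ha
    · left
      have e : iv x * a⁻¹ = iv x * (iv x * a)⁻¹ * iv x := by
        rw [mul_inv_rev]
        have h2 : (iv x)⁻¹ = iv x := inv_eq_of_mul_eq_one_left hs
        rw [h2]
        calc iv x * a⁻¹ = iv x * a⁻¹ * (iv x * iv x) := by rw [hs, mul_one]
          _ = _ := by group
      rw [e]
      exact hn _ (Subgroup.inv_mem _ ha)
    · right
      exact Subgroup.inv_mem _ ha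

theorem all_or (x : Lt α) (φ : MulAut (FreeGroup α)) : iv x * φ ∈ Sg α ∨ φ ∈ Sg α := by
  have h := nielsen_generation φ
  have hle : Subgroup.closure (genSet α) ≤ Tg x := by
    rw [Subgroup.closure_le]
    rintro φ (⟨σ, rfl⟩ | ⟨y, a, -, rfl⟩)
    · have h1 : σ ∈ Subgroup.closure {v : SP α | ∃ b c : Lt α, v = swp b c} := by
        rw [closure_swp]; trivial
      have h2 : Subgroup.closure {v : SP α | ∃ b c : Lt α, v = swp b c} ≤
          (Tg x).comap toAut := by
        rw [Subgroup.closure_le]
        rintro v ⟨b, c, rfl⟩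
        exact swp_or x b c
      exact h2 h1
    · exact Or.inr (E_mem y a)
  exact hle h

/-- automorphisms with trivial Jacobian are products of transvections -/
theorem mem_Sg {R : Type v} [CommRing R] (h2 : (2 : R) ≠ 0) [Nonempty α]
    {ψ : MulAut (FreeGroup α)}
    (h1 : ∀ i, mg (R := R) (ψ (FreeGroup.of i)) = mg (FreeGroup.of i)) : ψ ∈ Sg α := by
  obtain ⟨i⟩ := (inferInstance : Nonempty α)
  -- the determinant
  have hmul : ∀ ψ φ : MulAut (FreeGroup α), (J (R := R) (ψ * φ)).det.fst =
      (J (R := R) φ).det.fst * (J (R := R) ψ).det.fst := by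
    intro ψ φ
    rw [det_mul', TrivSqZeroExt.fst_mul, sgm_fst]
  have hS : ∀ φ ∈ Sg α, (J (R := R) φ).det.fst = 1 := by
    intro φ hφ
    unfold Sg at hφ
    induction hφ using Subgroup.closure_induction with
    | mem φ hφ =>
      obtain ⟨x, a, rfl⟩ := hφ
      by_cases hxa : x.1 = a.1
      · rw [eAut_junk x a hxa, J_one, Matrix.det_one]; rfl
      · obtain ⟨i, b⟩ := x
        obtain ⟨j, c⟩ := a
        have key : ∀ b : Bool, (J (R := R) (eAut (i, b) (j, true))).det.fst = 1 := by
          intro b
          cases b
          · rw [det_L hxa]; simp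
          · rw [det_R hxa]; simp
        cases c
        · have e1 : eAut (i, b) (j, false) = (eAut (i, b) (j, true))⁻¹ :=
            rel_aut.e1 (i, b) (j, true)
          have e2 := hmul (eAut (i, b) (j, true)) (eAut (i, b) (j, true))⁻¹
          rw [mul_inv_cancel, J_one, Matrix.det_one, key b, mul_one] at e2
          rw [e1, ← e2]; rfl
        · exact key b
    | one => rw [J_one, Matrix.det_one]; rfl
    | mul x y _ _ hx hy => rw [hmul, hx, hy, mul_one]
    | inv x _ hx =>
      have e2 := hmul x x⁻¹
      rw [mul_inv_cancel, J_one, Matrix.det_one, hx, mul_one] at e2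
      rw [← e2]; rfl
  have hι : (J (R := R) (iv ((i, true) : Lt α))).det.fst = -1 := by
    have e1 : ∀ k : α, iv ((i, true) : Lt α) (FreeGroup.of k) =
        if k = i then (FreeGroup.of i)⁻¹ else FreeGroup.of k := by
      intro k
      unfold iv
      rw [← gl_true k, toAut_gl]
      by_cases hk : k = i
      · subst hk
        rw [swp_left, if_pos rfl, gl_nv, gl_true]
      · rw [swp_other (by exact hk) (by exact hk), if_neg hk]
    have e2 : J (R := R) (iv ((i, true) : Lt α)) =
        Matrix.diagonal (Function.update 1 i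
          (-((eu (-Pi.single i 1 : α → R) : (SS α R)ˣ) : SS α R))) := by
      apply Matrix.ext
      intro k l
      show (mg (R := R) (iv ((i, true) : Lt α) (FreeGroup.of k))).v l = _
      rw [e1, Matrix.diagonal_apply]
      by_cases hk : k = i
      · subst hk
        rw [if_pos rfl, map_inv, Aff.inv_v, mg_of, Pi.neg_apply, Pi.smul_apply, eu_neg,
          Function.update_self]
        simp only [Pi.single_apply, smul_eq_mul, eq_comm]
        split_ifs <;> simp
      · rw [if_neg hk, mg_of, Function.update_of_ne hk]
        simp only [Pi.single_apply, Pi.one_apply, eq_comm]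
    rw [e2, Matrix.det_diagonal, Finset.prod_update_of_mem (Finset.mem_univ i)]
    simp only [Pi.one_apply, Finset.prod_const_one, mul_one, eu_val]
    simp
  rcases all_or ((i, true) : Lt α) ψ with h | h
  · exfalso
    have k1 := hS _ h
    rw [hmul, hι] at k1
    have e1 : J (R := R) ψ = J 1 := by
      apply Matrix.ext
      intro i j
      show (mg (R := R) (ψ (FreeGroup.of i))).v j = (mg (R := R) (FreeGroup.of i)).v j
      rw [h1]
    rw [e1, J_one, Matrix.det_one] at k1
    apply h2
    have k2 : (1 : R) * -1 = 1 := k1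
    rw [one_mul] at k2
    calc (2 : R) = 1 + 1 := by norm_num
      _ = -1 + 1 := by rw [k2]
      _ = 0 := by norm_num
  · exact h

end Pool.Agent.W7h60.QQ
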