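import Mathlib
import Pool.Agent.W7h60.QQ.Lin
import Pool.Agent.W7h60.QQ.Sgn

set_option autoImplicit false
set_option linter.unusedSectionVars false

/-! The characteristic subgroup and the congruence property. -/

namespace Pool.Agent.W7h60.QQ

open Pool.Agent.Helper156.OF
open scoped commutatorElement

universe u v

section lcs

variable {α : Type} [DecidableEq α] [Fintype α] {R : Type v} [CommRing R]

theorem ab_mul (x y : FreeGroup α) : ab (R := R) (x * y) = ab x + ab y := by
  have h := congrArg Aff.a (map_mul (mg (R := R)) x y)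
  rw [Aff.mul_a, mg_a, mg_a, mg_a, ← eu_add] at h
  have h2 := congrArg (fun z : (SS α R)ˣ => (z : SS α R).snd) h
  simpa [eu_val] using h2

theorem ab_one : ab (R := R) (1 : FreeGroup α) = 0 := by
  have h := ab_mul (R := R) (1 : FreeGroup α) 1
  rw [mul_one] at h
  exact left_eq_add.1 h

theorem ab_inv (x : FreeGroup α) : ab (R := R) x⁻¹ = -ab x := by
  have h := ab_mul (R := R) x x⁻¹
  rw [mul_inv_cancel, ab_one] at h
  exact (neg_eq_of_add_eq_zero_right h.symm).symm

/-- the kernel of the abelianization -/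
def abK (α : Type) [DecidableEq α] [Fintype α] (R : Type v) [CommRing R] :
    Subgroup (FreeGroup α) where
  carrier := {u | ab (R := R) u = 0}
  one_mem' := ab_one
  mul_mem' := by
    intro a b ha hb
    show ab (R := R) (a * b) = 0
    rw [ab_mul, show ab (R := R) a = 0 from ha, show ab (R := R) b = 0 from hb, add_zero]
  inv_mem' := by
    intro a ha
    show ab (R := R) a⁻¹ = 0
    rw [ab_inv, show ab (R := R) a = 0 from ha, neg_zero]

/-- the Magnus homomorphism kills the third term of the lower central series -/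
theorem mg_lcs : ⁅⁅(⊤ : Subgroup (FreeGroup α)), (⊤ : Subgroup (FreeGroup α))⁆,
    (⊤ : Subgroup (FreeGroup α))⁆ ≤ (mg (ι := α) (R := R)).ker := by
  have h1 : ⁅(⊤ : Subgroup (FreeGroup α)), (⊤ : Subgroup (FreeGroup α))⁆ ≤ abK α R := by
    rw [Subgroup.commutator_le]
    intro x _ y _
    show ab (R := R) ⁅x, y⁆ = 0
    rw [commutatorElement_def, ab_mul, ab_mul, ab_mul, ab_inv, ab_inv]
    abel
  rw [Subgroup.commutator_le]
  intro x hx y _
  have hx' : ab (R := R) x = 0 := h1 hx
  rw [MonoidHom.mem_ker, map_commutatorElement, commutatorElement_eq_one_iff_mul_comm]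
  have e1 : (mg (R := R) x).a = 1 := by rw [mg_a, hx', eu_zero]
  have e2 : ∀ j, ((mg (R := R) x).v j).fst = 0 := fun j => congrFun hx' j
  ext : 1
  · rw [Aff.mul_a, Aff.mul_a, e1, one_mul, mul_one]
  · rw [Aff.mul_v, Aff.mul_v, e1, Units.val_one, one_smul, mg_a, eu_val]
    have e3 : ((1 : SS α R) + TrivSqZeroExt.inr (ab y)) • (mg (R := R) x).v =
        (mg (R := R) x).v := by
      funext j
      rw [Pi.smul_apply, smul_eq_mul, add_mul, one_mul]
      have : TrivSqZeroExt.inr (ab y) * (mg (R := R) x).v j = 0 := by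
        ext : 1
        · rw [TrivSqZeroExt.fst_mul, TrivSqZeroExt.fst_inr, zero_mul, TrivSqZeroExt.fst_zero]
        · rw [TrivSqZeroExt.snd_mul, TrivSqZeroExt.fst_inr, zero_smul, e2, MulOpposite.op_zero,
            zero_smul, add_zero, TrivSqZeroExt.snd_zero]
      rw [this, add_zero]
    rw [e3, add_comm]

end lcs

section fin

variable (n p : ℕ)

/-- the intersection of the kernels of all homomorphisms to the group of affine transformations -/
def CC : Subgroup (FreeGroup (Fin n)) :=
  ⨅ f : FreeGroup (Fin n) →* Aff (Fin n) (SS (Fin n) (ZMod p)), f.ker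

variable {n p}

theorem mem_CC {x : FreeGroup (Fin n)} : x ∈ CC n p ↔
    ∀ f : FreeGroup (Fin n) →* Aff (Fin n) (SS (Fin n) (ZMod p)), f x = 1 := by
  unfold CC
  rw [Subgroup.mem_iInf]
  rfl

instance finSS [NeZero p] : Finite (SS (Fin n) (ZMod p)) :=
  inferInstanceAs (Finite (ZMod p × (Fin n → ZMod p)))

instance finAff [NeZero p] : Finite (Aff (Fin n) (SS (Fin n) (ZMod p))) :=
  Finite.of_injective (fun x => (x.a, x.v)) fun x y h => by
    ext : 1
    · exact congrArg Prod.fst h
    · exact congrArg Prod.snd h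

instance finHom [NeZero p] : Finite (FreeGroup (Fin n) →* Aff (Fin n) (SS (Fin n) (ZMod p))) :=
  Finite.of_equiv _ (FreeGroup.lift (α := Fin n) (β := Aff (Fin n) (SS (Fin n) (ZMod p))))

theorem CC_char : (CC n p).Characteristic := by
  rw [Subgroup.characteristic_iff_le_comap]
  intro φ x hx
  rw [Subgroup.mem_comap]
  rw [mem_CC] at hx ⊢
  exact fun f => hx (f.comp φ.toMonoidHom)

theorem CC_fin [NeZero p] : (CC n p).FiniteIndex := by
  unfold CC
  exact Subgroup.finiteIndex_iInf fun f => inferInstance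

/-- the automorphisms acting trivially on the quotient form a subgroup of finite index -/
theorem fin_index {C : Subgroup (FreeGroup (Fin n))} (hC : C.Characteristic)
    (hf : C.FiniteIndex) {N : Subgroup (MulAut (FreeGroup (Fin n)))}
    (h : ∀ ψ : MulAut (FreeGroup (Fin n)), (∀ x, ψ x * x⁻¹ ∈ C) → ψ ∈ N) : N.FiniteIndex := by
  have hn : C.Normal := inferInstance
  have hmap : ∀ ψ : MulAut (FreeGroup (Fin n)), C.map (ψ : FreeGroup (Fin n) →* _) = C :=
    fun ψ => Subgroup.characteristic_iff_map_eq.1 hC ψ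
  let act : MulAut (FreeGroup (Fin n)) →* MulAut (FreeGroup (Fin n) ⧸ C) :=
    { toFun := fun ψ => QuotientGroup.congr C C ψ (hmap ψ)
      map_one' := by
        apply MulEquiv.ext
        intro x
        induction x using QuotientGroup.induction_on with
        | H z => rfl
      map_mul' := by
        intro ψ φ
        apply MulEquiv.ext
        intro x
        induction x using QuotientGroup.induction_on with
        | H z => rfl }
  have : Finite (FreeGroup (Fin n) ⧸ C) := inferInstance
  have hfin : act.ker.FiniteIndex := inferInstance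
  refine Subgroup.finiteIndex_of_le (H := act.ker) ?_
  intro ψ hψ
  apply h
  intro x
  have h1 : act ψ (QuotientGroup.mk x) = QuotientGroup.mk x := by
    rw [MonoidHom.mem_ker] at hψ
    rw [hψ]
    rfl
  have h2 : (QuotientGroup.mk (ψ x) : FreeGroup (Fin n) ⧸ C) = QuotientGroup.mk x := h1
  rw [QuotientGroup.eq] at h2
  have h3 := hn.conj_mem _ h2 x
  have h4 := C.inv_mem h3
  have e : (x * ((ψ x)⁻¹ * x) * x⁻¹)⁻¹ = ψ x * x⁻¹ := by group
  rwa [e] at h4

end fin

/-- small representations in characteristic different from two kill the automorphisms which act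
trivially on the quotient by the third term of the lower central series -/
theorem small_lcs {n d : ℕ} (hd : d < (n / 2 - 5).choose 2) (K : Type u) [Field K]
    (h2 : (2 : K) ≠ 0) (f : MulAut (FreeGroup (Fin n)) →* Matrix.GeneralLinearGroup (Fin d) K)
    {ψ : MulAut (FreeGroup (Fin n))}
    (hψ : ∀ x, ψ x * x⁻¹ ∈ ⁅⁅(⊤ : Subgroup (FreeGroup (Fin n))),
      (⊤ : Subgroup (FreeGroup (Fin n)))⁆, (⊤ : Subgroup (FreeGroup (Fin n)))⁆) : f ψ = 1 := by
  obtain ⟨hn, -⟩ := dim_facts hd
  have hmg : ∀ i, mg (R := K) (ψ (FreeGroup.of i)) = mg (FreeGroup.of i) := by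
    intro i
    have := mg_lcs (R := K) (hψ (FreeGroup.of i))
    rw [MonoidHom.mem_ker, map_mul, map_inv, mul_inv_eq_one] at this
    exact this
  have : Nonempty (Fin n) := ⟨⟨0, by omega⟩⟩
  have h5 : 5 ≤ Fintype.card (Fin n) := by rw [Fintype.card_fin]; omega
  have h := triv (R := K) (qrel hd K h2 f) h5 (mem_Sg h2 hmg) hmg
  exact Units.ext h

/-- small representations in odd characteristic kill the automorphisms which act trivially on the
quotient by `CC n p` -/
theorem small_CC {n d p : ℕ} (hp : p.Prime) (hp2 : p ≠ 2) (hd : d < (n / 2 - 5).choose 2)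
    (K : Type u) [Field K] [CharP K p]
    (f : MulAut (FreeGroup (Fin n)) →* Matrix.GeneralLinearGroup (Fin d) K)
    {ψ : MulAut (FreeGroup (Fin n))} (hψ : ∀ x, ψ x * x⁻¹ ∈ CC n p) : f ψ = 1 := by
  obtain ⟨hn, -⟩ := dim_facts hd
  have : Fact p.Prime := ⟨hp⟩
  have hmg : ∀ i, mg (R := ZMod p) (ψ (FreeGroup.of i)) = mg (FreeGroup.of i) := by
    intro i
    have := mem_CC.1 (hψ (FreeGroup.of i)) mg
    rw [map_mul, map_inv, mul_inv_eq_one] at this
    exact this
  have : Nonempty (Fin n) := ⟨⟨0, by omega⟩⟩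
  have h5 : 5 ≤ Fintype.card (Fin n) := by rw [Fintype.card_fin]; omega
  have hpn : ∀ (L : Type u) [Field L] [CharP L p], (2 : L) ≠ 0 := by
    intro L _ _ h
    have h1 : ((2 : ℕ) : L) = 0 := by exact_mod_cast h
    rw [CharP.cast_eq_zero_iff L p] at h1
    exact hp2 ((Nat.prime_dvd_prime_iff_eq hp Nat.prime_two).1 h1)
  have h2z : (2 : ZMod p) ≠ 0 := by
    intro h
    have h1 : ((2 : ℕ) : ZMod p) = 0 := by exact_mod_cast h
    rw [CharP.cast_eq_zero_iff (ZMod p) p] at h1
    exact hp2 ((Nat.prime_dvd_prime_iff_eq hp Nat.prime_two).1 h1)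
  let _ : Algebra (ZMod p) K := ZMod.algebra K p
  have h := triv (R := ZMod p) (qrel hd K (hpn K) f) h5 (mem_Sg h2z hmg) hmg
  exact Units.ext h

end Pool.Agent.W7h60.QQ
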